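import Pool.Agent.TH18.NN.Pack

/-! Monoid rings: basic maps. -/

set_option autoImplicit false

namespace Pool.Agent.TH18.MS

open Pool.Agent.TH18.NN

/-- the integral monoid ring -/
abbrev ZM (M : Type) [Monoid M] : Type := MonoidAlgebra ℤ M

section
variable {A B C : Type} [Monoid A] [Monoid B] [Monoid C]

/-- the map of monoid rings -/
noncomputable def pushM (p : A →* B) : ZM A →+* ZM B := MonoidAlgebra.mapDomainRingHom ℤ p

theorem pushM_of (p : A →* B) (x : A) :
    pushM p (MonoidAlgebra.of ℤ A x) = MonoidAlgebra.of ℤ B (p x) := by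
  simp [pushM, MonoidAlgebra.of_apply]

theorem pushM_surj (p : A →* B) (hp : Function.Surjective p) : Function.Surjective (pushM p) := by
  intro y
  induction y using MonoidAlgebra.induction_on with
  | of y => obtain ⟨x, rfl⟩ := hp y; exact ⟨_, pushM_of p x⟩
  | add a b ha hb =>
    obtain ⟨x, rfl⟩ := ha
    obtain ⟨y, rfl⟩ := hb
    exact ⟨x + y, map_add _ _ _⟩
  | smul r a ha =>
    obtain ⟨x, rfl⟩ := ha
    exact ⟨r • x, map_zsmul _ _ _⟩

theorem pushM_inj (p : A →* B) (hp : Function.Injective p) : Function.Injective (pushM p) :=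
  MonoidAlgebra.mapDomain_injective hp

theorem pushM_comp (f : A →* B) (g : B →* C) : (pushM g).comp (pushM f) = pushM (g.comp f) := by
  apply RingHom.ext
  intro x
  show pushM g (pushM f x) = pushM (g.comp f) x
  induction x using MonoidAlgebra.induction_on with
  | of a => rw [pushM_of, pushM_of, pushM_of]; rfl
  | add a b ha hb => rw [map_add, map_add, map_add, ha, hb]
  | smul r a ha => rw [map_zsmul, map_zsmul, map_zsmul, ha]

end

section triv
variable (M : Type) [Monoid M]

/-- the augmentation -/
noncomputable def augM : ZM M →+* ℤ := (MonoidAlgebra.lift ℤ ℤ M (1 : M →* ℤ)).toRingHom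

theorem augM_of (g : M) : augM M (MonoidAlgebra.of ℤ M g) = 1 := by
  simp [augM]

/-- the trivial module -/
def TrM (_ : Type) : Type := ℤ

instance : AddCommGroup (TrM M) := inferInstanceAs (AddCommGroup ℤ)
noncomputable instance : Module (ZM M) (TrM M) := Module.compHom ℤ (augM M)

/-- the augmentation as a linear map -/
noncomputable def augML : ZM M →ₗ[ZM M] TrM M where
  toFun x := (show ℤ from augM M x)
  map_add' x y := map_add (augM M) x y
  map_smul' c x := map_mul (augM M) c x

theorem augML_surj : Function.Surjective (augML M) := by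
  intro z
  refine ⟨(show ℤ from z) • 1, ?_⟩
  show augM M ((show ℤ from z) • 1) = z
  rw [map_zsmul, map_one, zsmul_eq_mul, mul_one]; rfl

end triv

/-- total augmentation of a vector -/
noncomputable def tot {G : Type} [Monoid G] {a : ℕ} (x : Fin a → ZM G) : ℤ := ∑ j, augM G (x j)

section tot
variable {N G : Type} [Monoid N] [Monoid G]

theorem tot_add {a : ℕ} (x y : Fin a → ZM G) : tot (x + y) = tot x + tot y := by
  unfold tot
  rw [← Finset.sum_add_distrib]
  exact Finset.sum_congr rfl fun i _ => map_add (augM G) _ _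

theorem tot_sub {a : ℕ} (x y : Fin a → ZM G) : tot (x - y) = tot x - tot y := by
  unfold tot
  rw [← Finset.sum_sub_distrib]
  exact Finset.sum_congr rfl fun i _ => map_sub (augM G) _ _

theorem tot_smul {a : ℕ} (c : ZM G) (x : Fin a → ZM G) :
    tot (c • x) = augM G c * tot x := by
  unfold tot
  rw [Finset.mul_sum]
  exact Finset.sum_congr rfl fun i _ => map_mul (augM G) _ _

theorem augM_push (ι : N →* G) (c : ZM N) : augM G (pushM ι c) = augM N c := by
  induction c using MonoidAlgebra.induction_on with
  | of h => rw [pushM_of, augM_of, augM_of]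
  | add a b ha hb => rw [map_add, map_add, map_add, ha, hb]
  | smul r a ha => rw [map_zsmul, map_zsmul, map_zsmul, ha]

theorem tot_vm (ι : N →* G) {a : ℕ} (x : Fin a → ZM N) : tot (vm (pushM ι) x) = tot x :=
  Finset.sum_congr rfl fun i _ => augM_push ι _

theorem tot_single {a : ℕ} (i : Fin a) : tot (Pi.single i 1 : Fin a → ZM G) = 1 := by
  unfold tot
  rw [Finset.sum_eq_single i]
  · rw [Pi.single_eq_same, map_one]
  · intro j _ hj
    rw [Pi.single_eq_of_ne hj, map_zero]
  · intro h; exact absurd (Finset.mem_univ _) h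

theorem tot_sum {a : ℕ} {κ : Type} (s : Finset κ) (x : κ → Fin a → ZM G) :
    tot (∑ i ∈ s, x i) = ∑ i ∈ s, tot (x i) := by
  classical
  induction s using Finset.induction_on with
  | empty => simp [tot]
  | insert i s hi ih => rw [Finset.sum_insert hi, Finset.sum_insert hi, tot_add, ih]

theorem tot_zero {a : ℕ} : tot (0 : Fin a → ZM G) = 0 := by simp [tot]

end tot

/-- a partial resolution of finite type -/
structure NResM (N : Type) [Monoid N] (n : ℕ) where
  k : ℕ → ℕ
  d : ∀ j, (Fin (k (j + 1)) → ZM N) →ₗ[ZM N] (Fin (k j) → ZM N)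
  one : ∃ x : Fin (k 0) → ZM N, tot x = 1
  ex0 : 0 < n → ∀ x, tot x = 0 ↔ ∃ y, d 0 y = x
  ex : ∀ j, j + 2 ≤ n → ∀ x, d j x = 0 ↔ ∃ y, d (j + 1) y = x

end Pool.Agent.TH18.MS
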