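import Pool.Agent.TH18.MS.Link
import Pool.Agent.TH18.VS.Virt

/-! Conversions; monoids attached to characters. -/

set_option autoImplicit false

namespace Pool.Agent.TH18.MS

open Pool.Agent.W326.DU (ZG)
open Pool.Agent.TH18 (augR augR_of Tr augL augL_surj)
open Pool.Agent.TH18.NN
open Pool.Agent.TH18.VS (FPg)

section conv
variable {G : Type} [Monoid G]

/-- the total augmentation as a linear map -/
noncomputable def totL (a : ℕ) : (Fin a → ZM G) →ₗ[ZM G] TrM G where
  toFun x := (show ℤ from tot x)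
  map_add' x y := tot_add x y
  map_smul' c x := tot_smul c x

theorem totL_surj {a : ℕ} (h : ∃ x : Fin a → ZM G, tot x = 1) :
    Function.Surjective (totL (G := G) a) := by
  intro z
  obtain ⟨x, hx⟩ := h
  refine ⟨(((show ℤ from z) : ℤ) : ZM G) • x, ?_⟩
  rw [map_smul]
  show (augM G ((show ℤ from z : ℤ) : ZM G)) * tot x = (show ℤ from z)
  rw [hx, mul_one, map_intCast]
  rfl

theorem NResM.fpm {m : ℕ} (F : NResM G m) : FPm (ZM G) m (TrM G) := by
  let X : ℕ → ModuleCat.{0} (ZM G) := fun j => match j with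
    | 0 => ModuleCat.of (ZM G) (TrM G)
    | j + 1 => ModuleCat.of (ZM G) (Fin (F.k j) → ZM G)
  let dl : ∀ j, X (j + 1) →ₗ[ZM G] X j := fun j => match j with
    | 0 => totL (F.k 0)
    | j + 1 => F.d j
  refine fpm_of_complex X dl m (totL_surj F.one) ?_ ?_
  · intro j hj
    cases j with
    | zero => exact F.ex0 (by omega)
    | succ j => exact F.ex j (by omega)
  · intro j _ l
    exact FPm.free l (F.k j)

theorem fpm_resM {m : ℕ} (h : FPm (ZM G) (m + 1) (TrM G)) : Nonempty (NResM G (m + 1)) := by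
  have h1 : FPm (ZM G) m (LinearMap.ker (totL (G := G) 1)) :=
    FPm.ker _ (totL_surj ⟨Pi.single 0 1, tot_single 0⟩) (FPm.free m 1) h
  obtain ⟨k', d', e', h2, h3, h4⟩ := h1.res
  let k : ℕ → ℕ := fun j => match j with
    | 0 => 1
    | j + 1 => k' j
  let d : ∀ j, (Fin (k (j + 1)) → ZM G) →ₗ[ZM G] (Fin (k j) → ZM G) := fun j => match j with
    | 0 => (LinearMap.ker (totL (G := G) 1)).subtype ∘ₗ e'
    | j + 1 => d' j
  refine ⟨⟨k, d, ⟨Pi.single 0 1, tot_single (a := 1) 0⟩, ?_, ?_⟩⟩
  · intro _ x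
    constructor
    · intro hx
      obtain ⟨y, hy⟩ := h2 ⟨x, hx⟩
      exact ⟨y, congrArg Subtype.val hy⟩
    · rintro ⟨y, rfl⟩
      exact (e' y).2
  · intro j hj
    cases j with
    | zero =>
      intro x
      have h5 := h3 (by omega) x
      rw [show (∃ y, d (0 + 1) y = x) ↔ ∃ y, d' 0 y = x from Iff.rfl, ← h5]
      constructor
      · intro hx
        exact Subtype.ext hx
      · intro hx
        show (e' x).1 = 0
        rw [hx]; rfl
    | succ j => exact h4 j (by omega)

theorem fpm_zeroM : FPm (ZM G) 0 (TrM G) := by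
  show Module.Finite (ZM G) (TrM G)
  exact Module.Finite.of_surjective (augML G) (augML_surj G)

/-- transport along an isomorphism -/
theorem fpm_congr {H : Type} [Monoid H] {n : ℕ} (e : G ≃* H) (h : FPm (ZM H) n (TrM H)) :
    FPm (ZM G) n (TrM G) := by
  let ψ : ZM G →+* ZM H := pushM e.toMonoidHom
  have hb : Function.Bijective ψ :=
    ⟨pushM_inj _ e.injective, pushM_surj _ e.surjective⟩
  have h0 : FPm (ZM G) n (Infl ψ (ZM H)) := by
    let f : ZM G →ₗ[ZM G] Infl ψ (ZM H) :=
      { toFun := fun x => (show ZM H from ψ x)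
        map_add' := fun x y => map_add ψ x y
        map_smul' := fun c x => map_mul ψ c x }
    exact ((FPm.free n 1).equiv (LinearEquiv.funUnique (Fin 1) (ZM G) (ZM G))).equiv
      (LinearEquiv.ofBijective f hb)
  have h1 := infl_fp ψ h0 h
  let e : Infl ψ (TrM H) ≃ₗ[ZM G] TrM G :=
    { toFun := fun x => x
      invFun := fun x => x
      left_inv := fun _ => rfl
      right_inv := fun _ => rfl
      map_add' := fun _ _ => rfl
      map_smul' := by
        intro c x
        show augM H (pushM e.toMonoidHom c) * (show ℤ from x) = augM G c * (show ℤ from x)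
        rw [augM_push] }
  exact h1.equiv e

end conv

theorem augM_eq_augR {G : Type} [Group G] (c : ZG G) : augM G c = augR G c := by
  induction c using MonoidAlgebra.induction_on with
  | of h => rw [augR_of, augM_of]
  | add a b ha hb => rw [map_add, map_add, ha, hb]
  | smul r a ha => rw [map_zsmul, map_zsmul, ha]

theorem fpm_of_fpg {G : Type} [Group G] {n : ℕ} (h : FPg n G) : FPm (ZM G) n (TrM G) := by
  let e : Tr G ≃ₗ[ZM G] TrM G :=
    { toFun := fun x => x
      invFun := fun x => x
      left_inv := fun _ => rfl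
      right_inv := fun _ => rfl
      map_add' := fun _ _ => rfl
      map_smul' := by
        intro c x
        show augR G c * (show ℤ from x) = augM G c * (show ℤ from x)
        rw [augM_eq_augR] }
  exact FPm.equiv e h

/-! ### characters -/

section ch
variable {G : Type} [Group G] (χ : G →* Multiplicative ℝ)

/-- the value of a character as a real number -/
def ht (g : G) : ℝ := Multiplicative.toAdd (χ g)

theorem ht_mul (a b : G) : ht χ (a * b) = ht χ a + ht χ b := by
  unfold ht
  rw [map_mul]; rfl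

theorem ht_one : ht χ 1 = 0 := by
  unfold ht
  rw [map_one]; rfl

theorem ht_inv (a : G) : ht χ a⁻¹ = - ht χ a := by
  unfold ht
  rw [map_inv]; rfl

theorem ht_pow (a : G) (n : ℕ) : ht χ (a ^ n) = n * ht χ a := by
  induction n with
  | zero => rw [pow_zero, ht_one, Nat.cast_zero, zero_mul]
  | succ n ih => rw [pow_succ, ht_mul, ih, Nat.cast_succ, add_mul, one_mul]

/-- the monoid `{χ ≥ 0}` -/
def Mo : Submonoid G where
  carrier := {g | 0 ≤ ht χ g}
  mul_mem' := by
    intro a b ha hb
    show 0 ≤ ht χ (a * b)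
    rw [ht_mul]; exact add_nonneg ha hb
  one_mem' := by
    show 0 ≤ ht χ 1
    rw [ht_one]

theorem mem_Mo {g : G} : g ∈ Mo χ ↔ 0 ≤ ht χ g := Iff.rfl

instance : IsCancelMul (Mo χ) where
  mul_left_cancel a b c h := by
    have h1 : a.1 * b.1 = a.1 * c.1 := congrArg Subtype.val h
    exact Subtype.ext (mul_left_cancel h1)
  mul_right_cancel a b c h := by
    have h1 : b.1 * a.1 = c.1 * a.1 := congrArg Subtype.val h
    exact Subtype.ext (mul_right_cancel h1)

/-- large powers -/
theorem exists_pow {k : G} (hk : 0 < ht χ k) (c : ℝ) : ∃ n : ℕ, c ≤ ht χ (k ^ n) := by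
  obtain ⟨n, hn⟩ := exists_nat_ge (c / ht χ k)
  refine ⟨n, ?_⟩
  rw [ht_pow]
  rwa [div_le_iff₀ hk] at hn

end ch

/-- functoriality -/
def Mo.congr {G H : Type} [Group G] [Group H] (e : G ≃* H) (χ : G →* Multiplicative ℝ)
    (χ' : H →* Multiplicative ℝ) (h : ∀ g, χ' (e g) = χ g) : Mo χ ≃* Mo χ' where
  toFun x := ⟨e x.1, by
    show 0 ≤ ht χ' (e x.1)
    unfold ht
    rw [h]; exact x.2⟩
  invFun y := ⟨e.symm y.1, by
    show 0 ≤ ht χ (e.symm y.1)
    unfold ht
    rw [← h, MulEquiv.apply_symm_apply]; exact y.2⟩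
  left_inv x := Subtype.ext (e.symm_apply_apply _)
  right_inv x := Subtype.ext (e.apply_symm_apply _)
  map_mul' x y := Subtype.ext (map_mul e _ _)

end Pool.Agent.TH18.MS
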