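import Pool.Agent.TH18.MS.Mu

/-! Decomposition of elements of monoid rings along the fibres of a homomorphism. -/

set_option autoImplicit false

namespace Pool.Agent.TH18.MS

open Pool.Agent.TH18.NN

section comp
variable {M Q : Type} [Monoid M] (π : M → Q)

open Classical in
/-- the component supported on the fibre of `q` -/
noncomputable def comp (q : Q) : ZM M →+ ZM M :=
  MonoidAlgebra.coeffAddEquiv.symm.toAddMonoidHom.comp
    ((Finsupp.filterAddHom (fun g => π g = q)).comp MonoidAlgebra.coeffAddEquiv.toAddMonoidHom)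

theorem comp_coeff_pos (q : Q) (x : ZM M) (g : M) (h : π g = q) :
    (comp π q x).coeff g = x.coeff g := by
  classical
  exact Finsupp.filter_apply_pos _ _ h

theorem comp_coeff_neg (q : Q) (x : ZM M) (g : M) (h : π g ≠ q) :
    (comp π q x).coeff g = 0 := by
  classical
  exact Finsupp.filter_apply_neg _ _ h

theorem comp_of_pos (q : Q) (g : M) (h : π g = q) :
    comp π q (MonoidAlgebra.of ℤ M g) = MonoidAlgebra.of ℤ M g := by
  classical
  apply MonoidAlgebra.ext
  ext a
  by_cases ha : π a = q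
  · rw [comp_coeff_pos π q _ a ha]
  · rw [comp_coeff_neg π q _ a ha, MonoidAlgebra.of_apply, MonoidAlgebra.coeff_single,
      Finsupp.single_apply, if_neg]
    rintro rfl
    exact ha h

theorem comp_of_neg (q : Q) (g : M) (h : π g ≠ q) :
    comp π q (MonoidAlgebra.of ℤ M g) = 0 := by
  classical
  apply MonoidAlgebra.ext
  ext a
  by_cases ha : π a = q
  · rw [comp_coeff_pos π q _ a ha, MonoidAlgebra.of_apply, MonoidAlgebra.coeff_single,
      Finsupp.single_apply, if_neg]
    · rfl
    · rintro rfl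
      exact h ha
  · rw [comp_coeff_neg π q _ a ha]; rfl

theorem comp_sum (x : ZM M) : ∃ Q0 : Finset Q, ∀ Q1 : Finset Q, Q0 ⊆ Q1 →
    x = ∑ q ∈ Q1, comp π q x := by
  classical
  induction x using MonoidAlgebra.induction_on with
  | of g =>
    refine ⟨{π g}, fun Q1 h => ?_⟩
    rw [Finset.sum_eq_single (π g)]
    · rw [comp_of_pos π _ g rfl]
    · intro q _ hq
      exact comp_of_neg π q g (Ne.symm hq)
    · intro h'; exact absurd (h (Finset.mem_singleton_self _)) h'
  | add a b ha hb =>
    obtain ⟨Q1, h1⟩ := ha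
    obtain ⟨Q2, h2⟩ := hb
    refine ⟨Q1 ∪ Q2, fun Q3 h => ?_⟩
    have h3 := h1 Q3 (Finset.subset_union_left.trans h)
    have h4 := h2 Q3 (Finset.subset_union_right.trans h)
    conv_lhs => rw [h3, h4]
    rw [← Finset.sum_add_distrib]
    exact Finset.sum_congr rfl fun q _ => (map_add _ _ _).symm
  | smul r a ha =>
    obtain ⟨Q1, h1⟩ := ha
    refine ⟨Q1, fun Q3 h => ?_⟩
    conv_lhs => rw [h1 Q3 h]
    rw [Finset.smul_sum]
    exact Finset.sum_congr rfl fun q _ => (map_zsmul _ _ _).symm

/-- components of vectors -/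
noncomputable def compv (q : Q) (a : ℕ) : (Fin a → ZM M) →+ (Fin a → ZM M) where
  toFun x i := comp π q (x i)
  map_zero' := by funext i; exact map_zero _
  map_add' x y := by funext i; exact map_add _ _ _

theorem compv_apply (q : Q) {a : ℕ} (x : Fin a → ZM M) (i : Fin a) :
    compv π q a x i = comp π q (x i) := rfl

theorem compv_sum {a : ℕ} (x : Fin a → ZM M) : ∃ Q0 : Finset Q, x = ∑ q ∈ Q0, compv π q a x := by
  classical
  choose Q1 h1 using fun i => comp_sum π (x i)
  refine ⟨Finset.univ.biUnion Q1, ?_⟩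
  funext i
  rw [Finset.sum_apply]
  exact h1 i _ (Finset.subset_biUnion_of_mem Q1 (Finset.mem_univ i))

end comp

section fib
variable {N M Q : Type} [Monoid N] [Monoid M] [Monoid Q] (ι : N →* M) (π : M →* Q)
  (h1 : ∀ ν, π (ι ν) = 1)
  (hd : ∀ g g', π g = π g' → ∃ g0 ν ν', g = g0 * ι ν ∧ g' = g0 * ι ν')

include h1 in
theorem comp_mul (q : Q) (x : ZM M) (y : ZM N) :
    comp π q (x * pushM ι y) = comp π q x * pushM ι y := by
  induction y using MonoidAlgebra.induction_on with
  | of ν =>
    rw [pushM_of]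
    induction x using MonoidAlgebra.induction_on with
    | of g =>
      rw [← map_mul]
      by_cases h : π g = q
      · rw [comp_of_pos _ q g h, comp_of_pos, map_mul]
        rw [map_mul, h1, mul_one, h]
      · rw [comp_of_neg _ q g h, comp_of_neg, zero_mul]
        rw [map_mul, h1, mul_one]; exact h
    | add a b ha hb => rw [add_mul, map_add, map_add, ha, hb, add_mul]
    | smul r a ha => rw [smul_mul_assoc, map_zsmul, map_zsmul, ha, smul_mul_assoc]
  | add a b ha hb => rw [map_add, mul_add, map_add, ha, hb, mul_add]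
  | smul r a ha => rw [map_zsmul, mul_smul_comm, map_zsmul, ha, mul_smul_comm]

include h1 in
theorem compv_ind (q : Q) {a b : ℕ} (f : (Fin a → ZM N) →ₗ[ZM N] (Fin b → ZM N))
    (x : Fin a → ZM M) :
    compv π q b (ind (pushM ι) f x) = ind (pushM ι) f (compv π q a x) := by
  rw [ind_apply, ind_apply, map_sum]
  refine Finset.sum_congr rfl fun i _ => ?_
  funext j
  show comp π q (x i * pushM ι (f (Pi.single i 1) j)) = comp π q (x i) * pushM ι (f (Pi.single i 1) j)
  exact comp_mul ι π h1 q _ _

/-- in the coset of some element over `q` -/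
def InF (q : Q) {a : ℕ} (x : Fin a → ZM M) : Prop := ∃ g, π g = q ∧ InC ι g x

include h1 hd in
theorem InF.add {q : Q} {a : ℕ} {x y : Fin a → ZM M} (hx : InF ι π q x) (hy : InF ι π q y) :
    InF ι π q (x + y) := by
  obtain ⟨g, hg, hx⟩ := hx
  obtain ⟨g', hg', hy⟩ := hy
  obtain ⟨g0, ν, ν', rfl, rfl⟩ := hd g g' (by rw [hg, hg'])
  refine ⟨g0, ?_, (hx.lower ι).add ι (hy.lower ι)⟩
  rw [← hg, map_mul, h1, mul_one]

theorem InF.zsmul {q : Q} {a : ℕ} {x : Fin a → ZM M} (hx : InF ι π q x) (r : ℤ) :
    InF ι π q (r • x) := by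
  obtain ⟨g, hg, v, rfl⟩ := hx
  refine ⟨g, hg, r • v, ?_⟩
  have : vm (pushM ι) (r • v) = r • vm (pushM ι) v := by
    funext i
    exact map_zsmul (pushM ι) r (v i)
  rw [this, smul_comm]

include h1 hd in
theorem InF.compv (hπ : Function.Surjective π) (q : Q) {a : ℕ} (x : Fin a → ZM M) :
    InF ι π q (MS.compv π q a x) := by
  classical
  have hz : InF ι π q (0 : Fin a → ZM M) := by
    obtain ⟨g, hg⟩ := hπ q
    exact ⟨g, hg, InC.zero ι⟩
  have h2 : ∀ (j : Fin a) (c : ZM M), InF ι π q (MS.compv π q a (Pi.single j c)) := by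
    intro j c
    induction c using MonoidAlgebra.induction_on with
    | of g =>
      by_cases h : π g = q
      · refine ⟨g, h, Pi.single j 1, ?_⟩
        funext i
        rw [compv_apply, vm_single]
        show _ = MonoidAlgebra.of ℤ M g * (Pi.single j 1 : Fin a → ZM M) i
        by_cases hi : i = j
        · subst hi
          rw [Pi.single_eq_same, Pi.single_eq_same, comp_of_pos _ q g h, mul_one]
        · rw [Pi.single_eq_of_ne hi, Pi.single_eq_of_ne hi, map_zero, mul_zero]
      · have : MS.compv π q a (Pi.single j (MonoidAlgebra.of ℤ M g)) = 0 := by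
          funext i
          rw [compv_apply]
          by_cases hi : i = j
          · subst hi
            rw [Pi.single_eq_same, comp_of_neg _ q g h]; rfl
          · rw [Pi.single_eq_of_ne hi, map_zero]; rfl
        rw [this]; exact hz
    | add c c' hc hc' =>
      rw [Pi.single_add, map_add]
      exact hc.add ι π h1 hd hc'
    | smul r c hc =>
      rw [Pi.single_smul', map_zsmul]
      exact hc.zsmul ι π r
  rw [← Finset.univ_sum_single x, map_sum]
  have h3 : ∀ s : Finset (Fin a), InF ι π q (∑ j ∈ s, MS.compv π q a (Pi.single j (x j))) := by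
    intro s
    induction s using Finset.induction_on with
    | empty => rw [Finset.sum_empty]; exact hz
    | insert j s hj ih => rw [Finset.sum_insert hj]; exact (h2 j (x j)).add ι π h1 hd ih
  exact h3 _

variable [IsCancelMul M] (hι : Function.Injective ι) (hπ : Function.Surjective π)

include h1 hd hι hπ in
/-- kernel elements are sums of translates -/
theorem ker_closure {a b : ℕ} (f : (Fin a → ZM N) →ₗ[ZM N] (Fin b → ZM N)) (x : Fin a → ZM M)
    (hx : ind (pushM ι) f x = 0) :
    x ∈ AddSubmonoid.closure {y : Fin a → ZM M | ∃ g : M, ∃ z : Fin a → ZM N, f z = 0 ∧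
      y = MonoidAlgebra.of ℤ M g • vm (pushM ι) z} := by
  obtain ⟨Q0, hQ⟩ := compv_sum π x
  rw [hQ]
  refine AddSubmonoid.sum_mem _ fun q _ => AddSubmonoid.subset_closure ?_
  obtain ⟨g, _, z, hz⟩ := InF.compv ι π h1 hd hπ q x
  refine ⟨g, z, ?_, hz⟩
  have h2 := compv_ind ι π h1 q f x
  rw [hx, map_zero, hz, map_smul, ind_vm] at h2
  exact of_smul_vm_zero ι hι h2.symm

include h1 hd hι hπ in
/-- exactness is preserved by base change -/
theorem ind_exact {a b c : ℕ} (f : (Fin b → ZM N) →ₗ[ZM N] (Fin c → ZM N))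
    (f' : (Fin a → ZM N) →ₗ[ZM N] (Fin b → ZM N)) (h : ∀ z, f z = 0 ↔ ∃ y, f' y = z)
    (x : Fin b → ZM M) : ind (pushM ι) f x = 0 ↔ ∃ y, ind (pushM ι) f' y = x := by
  constructor
  · intro hx
    have h3 := ker_closure ι π h1 hd hι hπ f x hx
    have h2 : AddSubmonoid.closure {y : Fin b → ZM M | ∃ g : M, ∃ z : Fin b → ZM N, f z = 0 ∧
        y = MonoidAlgebra.of ℤ M g • vm (pushM ι) z} ≤
        (LinearMap.range (ind (pushM ι) f')).toAddSubmonoid := by
      rw [AddSubmonoid.closure_le]
      rintro _ ⟨g, z, hz, rfl⟩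
      obtain ⟨y, rfl⟩ := (h z).1 hz
      exact ⟨MonoidAlgebra.of ℤ M g • vm (pushM ι) y, by rw [map_smul, ind_vm]⟩
    exact h2 h3
  · rintro ⟨y, rfl⟩
    have h2 : ind (pushM ι) f ∘ₗ ind (pushM ι) f' = 0 := by
      rw [← ind_comp]
      apply lin_ext
      intro i
      rw [ind_single]
      have : (f ∘ₗ f') (Pi.single i 1) = 0 := (h _).2 ⟨_, rfl⟩
      rw [this]
      exact vm_zero _
    exact LinearMap.congr_fun h2 y

end fib

end Pool.Agent.TH18.MS
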