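import Pool.Agent.TH18.MS.Ind

/-! Reduction of the general statement to the induction. -/

set_option autoImplicit false

namespace Pool.Agent.TH18.MS

open Pool.Agent.W326.DU (ZG)
open Pool.Agent.TH18.NN
open Pool.Agent.TH18.VS

section fin
variable {m : ℕ} {Γ : Fin m → Type} [∀ i, Group (Γ i)]

/-- virtual surjection to tuples of size exactly `n` in `I` -/
theorem vsur_of_index {n : ℕ} (I : Finset (Fin m)) (hI : n ≤ I.card) (P : Subgroup (∀ i, Γ i))
    (hP : ∀ J ⊆ I, J.card = n →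
      (P.map (MonoidHom.pi (fun j : ↥J => Pi.evalMonoidHom Γ (j : Fin m)))).index ≠ 0) :
    VSur n I P := by
  classical
  intro i hiI J hJI hiJ hc
  have h1 : (insert i J).card ≤ n := by
    rw [Finset.card_insert_of_notMem hiJ]; exact hc
  have h1' : insert i J ⊆ I := by
    intro x hx
    rcases Finset.mem_insert.1 hx with rfl | hx
    · exact hiI
    · exact hJI hx
  obtain ⟨J', hJJ', hJ'I, hJ'⟩ := Finset.exists_subsuperset_card_eq h1' h1 hI
  have hi : i ∈ J' := hJJ' (Finset.mem_insert_self _ _)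
  let pr : (∀ i, Γ i) →* (∀ j : ↥J', Γ j) :=
    MonoidHom.pi (fun j : ↥J' => Pi.evalMonoidHom Γ (j : Fin m))
  let sg : Γ i →* (∀ j : ↥J', Γ j) := MonoidHom.mulSingle (fun j : ↥J' => Γ j) ⟨i, hi⟩
  have h2 : (P.map pr).FiniteIndex := ⟨hP J' hJ'I hJ'⟩
  have h3 : ((P.map pr).comap sg).FiniteIndex := by
    refine ⟨?_⟩
    rw [Subgroup.index_comap]
    exact (Subgroup.isFiniteRelIndex_of_finiteIndex (H := P.map pr)).relIndex_ne_zero
  refine Subgroup.finiteIndex_of_le (H := (P.map pr).comap sg) ?_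
  intro g hg
  obtain ⟨x, hx, hxg⟩ := hg
  have h4 : ∀ j : ↥J', x j = (Pi.mulSingle (⟨i, hi⟩ : ↥J') g : ∀ j : ↥J', Γ j) j :=
    fun j => congrFun hxg j
  refine ⟨x, ⟨hx, fun j hj => ?_⟩, ?_⟩
  · have h5 := h4 ⟨j, hJJ' (Finset.mem_insert_of_mem hj)⟩
    rw [Pi.mulSingle_eq_of_ne] at h5
    · exact h5
    · intro h6
      have : j = i := congrArg Subtype.val h6
      exact hiJ (this ▸ hj)
  · have h5 := h4 ⟨i, hi⟩
    rw [Pi.mulSingle_eq_same] at h5
    exact h5

/-- the hypotheses of the main theorem -/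
structure Hyp (n : ℕ) (Γ : Fin m → Type) [∀ i, Group (Γ i)] (S : Subgroup (∀ i, Γ i))
    (I : Finset (Fin m)) (χ : S →* Multiplicative ℝ) : Prop where
  hnm : n ≤ m
  hinj : ∀ x ∈ S, (∀ i ∈ I, x i = 1) → x = 1
  hV : ∀ J ⊆ I, J.card = n →
    (S.map (MonoidHom.pi (fun j : ↥J => Pi.evalMonoidHom Γ (j : Fin m)))).index ≠ 0
  hχ : ∀ J : Finset (Fin m), J.card = n → ∃ x : S, (∀ j ∈ J, x.1 j = 1) ∧ 0 < ht χ x

variable {n : ℕ} {S : Subgroup (∀ i, Γ i)} {I : Finset (Fin m)} {χ : S →* Multiplicative ℝ}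

theorem Hyp.card (h : Hyp n Γ S I χ) : n ≤ I.card := by
  by_contra hlt
  push Not at hlt
  obtain ⟨J, hIJ, _, hJ⟩ := Finset.exists_subsuperset_card_eq (Finset.subset_univ I) hlt.le
    (by rw [Finset.card_univ, Fintype.card_fin]; exact h.hnm)
  obtain ⟨x, hx, hx0⟩ := h.hχ J hJ
  have h1 : x = 1 := Subtype.ext (h.hinj x.1 x.2 fun i hi => hx i (hIJ hi))
  rw [h1, ht_one] at hx0
  exact lt_irrefl _ hx0

/-- the isomorphism with the projection -/
noncomputable def Hyp.equiv (h : Hyp n Γ S I χ) : S ≃* S.map (proj I) :=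
  MulEquiv.ofBijective ((proj I).subgroupMap S) (by
    constructor
    · rw [injective_iff_map_eq_one]
      intro x hx
      have h1 : proj I x.1 = 1 := congrArg Subtype.val hx
      refine Subtype.ext (h.hinj x.1 x.2 fun i hi => ?_)
      rw [← proj_mem hi x.1, h1]; rfl
    · exact (proj I).subgroupMap_surjective S)

theorem Hyp.equiv_apply (h : Hyp n Γ S I χ) (x : S) : (h.equiv x).1 = proj I x.1 := rfl

theorem Hyp.vs (h : Hyp n Γ S I χ) : VSur n I (S.map (proj I)) := by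
  classical
  intro i hi J hJ hiJ hc
  have h1 := vsur_of_index I h.card S h.hV i hi J hJ hiJ hc
  exact Subgroup.finiteIndex_of_le (map_KS_proj I J S hi)

/-- the transported character -/
noncomputable def Hyp.chi (h : Hyp n Γ S I χ) : S.map (proj I) →* Multiplicative ℝ :=
  χ.comp h.equiv.symm.toMonoidHom

theorem Hyp.chi_apply (h : Hyp n Γ S I χ) (x : S) : h.chi (h.equiv x) = χ x := by
  show χ (h.equiv.symm (h.equiv x)) = χ x
  rw [MulEquiv.symm_apply_apply]

theorem Hyp.xn (h : Hyp n Γ S I χ) : Xn n I (S.map (proj I)) h.chi := by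
  intro J hJ hc
  obtain ⟨J', hJJ', _, hJ'⟩ := Finset.exists_subsuperset_card_eq (Finset.subset_univ J) hc
    (by rw [Finset.card_univ, Fintype.card_fin]; exact h.hnm)
  obtain ⟨x, hx, hx0⟩ := h.hχ J' hJ'
  refine ⟨h.equiv x, ⟨(h.equiv x).2, fun i hi => ?_⟩, ?_⟩
  · rw [h.equiv_apply, proj_mem (hJ hi)]
    exact hx i (hJJ' hi)
  · unfold ht
    rw [h.chi_apply]
    exact hx0

/-- **The homological part.** -/
theorem Hyp.fpm (h : Hyp n Γ S I χ) (hn : 2 ≤ n) (hΓ : ∀ i, FPg n (Γ i)) :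
    FPm (ZM (Mo χ)) n (TrM (Mo χ)) := by
  refine fpm_congr (Mo.congr h.equiv χ h.chi h.chi_apply) ?_
  exact mvs _ n I _ h.chi rfl (supp_proj _ _) h.vs (cn_of_vs hn h.vs) (fun i _ => hΓ i) h.xn

end fin

end Pool.Agent.TH18.MS
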