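import Pool.Agent.TH18.MS.One

/-! The induction for monoids. -/

set_option autoImplicit false

namespace Pool.Agent.TH18.MS

open Pool.Agent.W326.DU (ZG)
open Pool.Agent.TH18.NN
open Pool.Agent.TH18.VS

variable {ι : Type} [DecidableEq ι] {Γ : ι → Type} [∀ i, Group (Γ i)]

/-- the character is nontrivial on the kernels of the projections to at most `k` factors -/
def Xn (k : ℕ) (I : Finset ι) (P : Subgroup (∀ i, Γ i)) (χ : P →* Multiplicative ℝ) : Prop :=
  ∀ J ⊆ I, J.card ≤ k → ∃ x : P, x.1 ∈ KS P J ∧ 0 < ht χ x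

theorem eqvP_mk (P : Subgroup (∀ i, Γ i)) (I : Finset ι) (x : P) :
    (eqvP P I (QuotientGroup.mk x)).1 = proj I x.1 := rfl

theorem xn_ker {I : Finset ι} {P : Subgroup (∀ i, Γ i)} {k : ℕ} {m : ι} (hm : m ∈ I)
    {χ : P →* Multiplicative ℝ} (h : Xn (k + 1) I P χ) :
    Xn k (I.erase m) (KS P {m}) (χ.comp (Subgroup.inclusion (KS_le P {m}))) := by
  intro J hJ hc
  obtain ⟨x, hx, hx0⟩ := h ({m} ∪ J) (by
    intro x hx
    rcases Finset.mem_union.1 hx with hx | hx
    · rw [Finset.mem_singleton] at hx; rw [hx]; exact hm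
    · exact Finset.mem_of_mem_erase (hJ hx)) (by
    refine (Finset.card_union_le _ _).trans ?_
    rw [Finset.card_singleton]; omega)
  rw [← KS_KS] at hx
  exact ⟨⟨x.1, hx.1⟩, hx, hx0⟩

theorem mvs : ∀ (s k : ℕ) (I : Finset ι) (P : Subgroup (∀ i, Γ i)) (χ : P →* Multiplicative ℝ),
    I.card = s → Supp I P → VSur k I P → CN I P → (∀ i ∈ I, FPg k (Γ i)) → Xn k I P χ →
    FPm (ZM (Mo χ)) k (TrM (Mo χ)) := by
  intro s
  induction s with
  | zero =>
    intro k I P χ hI hs _ _ _ hX
    have h0 : I = ∅ := Finset.card_eq_zero.1 hI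
    obtain ⟨x, _, hx⟩ := hX ∅ (Finset.empty_subset _) (by simp)
    have h1 : x = 1 := Subtype.ext (funext fun i => hs x.1 x.2 i (by
      rw [h0]; exact Finset.notMem_empty _))
    rw [h1, ht_one] at hx
    exact absurd hx (lt_irrefl _)
  | succ s ih =>
    intro k I P χ hI hs hv hc hΓ hX
    obtain ⟨m, hm⟩ : I.Nonempty := by
      rw [← Finset.card_pos, hI]; omega
    have hI' : (I.erase m).card = s := by
      rw [Finset.card_erase_of_mem hm, hI]; rfl
    rcases k with _ | k
    · exact fpm_zeroM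
    have hE : FPg (k + 1) (P.map (ev m)) := by
      have h1 := hv m hm ∅ (Finset.empty_subset _) (Finset.notMem_empty _) (by simp)
      rw [KS_empty] at h1
      exact FPg.subgroup _ (hΓ m hm)
    have hE' : FPg (k + 1) (P ⧸ ((KS P {m}).subgroupOf P)) := hE.congr (eqvE P m).symm
    have hfg : Group.FG (P ⧸ ((KS P {m}).subgroupOf P)) := (hE'.mono (by omega : 1 ≤ k + 1)).fg
    have hT : FPg (k + 1) (P.map (proj (I.erase m))) :=
      vsc_aux s (k + 1) (I.erase m) _ hI' (supp_proj _ _) (vs_proj hv) (cn_proj hc)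
        (fun i hi => hΓ i (Finset.mem_of_mem_erase hi))
    have hT' : FPg (k + 1) (P ⧸ ((KS P (I.erase m)).subgroupOf P)) := hT.congr (eqvP P _).symm
    obtain ⟨hQ1, hQ2⟩ := quo_nil P hm hc hfg
    have hχ : ∃ g ∈ (KS P {m}).subgroupOf P, 0 < ht χ g := by
      obtain ⟨x, hx, hx0⟩ := hX {m} (by simpa using hm) (by simp)
      exact ⟨x, hx, hx0⟩
    -- the comparison
    have key : ∃ (M' : Type) (_ : Monoid M') (_ : IsCancelMul M') (p : Mo χ →* M')
        (j : M' →* P ⧸ ((KS P (I.erase m)).subgroupOf P)), Function.Surjective p ∧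
        Function.Injective j ∧ (∀ g : Mo χ, j (p g) = QuotientGroup.mk g.1) ∧
        FPm (ZM M') (k + 1) (TrM M') := by
      by_cases hA : ∀ n ∈ (KS P (I.erase m)).subgroupOf P, χ n = 1
      · let χ' : P ⧸ ((KS P (I.erase m)).subgroupOf P) →* Multiplicative ℝ :=
          QuotientGroup.lift _ χ hA
        have hχ' : ∀ g : P, χ' (QuotientGroup.mk g) = χ g := fun g => rfl
        let e := eqvP P (I.erase m)
        let χT : P.map (proj (I.erase m)) →* Multiplicative ℝ := χ'.comp e.symm.toMonoidHom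
        have hχT : ∀ x, χT (e x) = χ' x := by
          intro x
          show χ' (e.symm (e x)) = χ' x
          rw [MulEquiv.symm_apply_apply]
        have hXT : Xn (k + 1) (I.erase m) (P.map (proj (I.erase m))) χT := by
          intro J hJ hJc
          obtain ⟨x, hx, hx0⟩ := hX J (fun y hy => Finset.mem_of_mem_erase (hJ hy)) hJc
          refine ⟨e (QuotientGroup.mk x), ⟨(e (QuotientGroup.mk x)).2, fun i hi => ?_⟩, ?_⟩
          · rw [eqvP_mk, proj_mem (hJ hi)]
            exact hx.2 i hi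
          · unfold ht
            rw [hχT, hχ']
            exact hx0
        refine ⟨Mo χ', inferInstance, inferInstance,
          { toFun := fun g => ⟨QuotientGroup.mk g.1, by
              show 0 ≤ ht χ' (QuotientGroup.mk g.1)
              unfold ht
              rw [hχ']; exact g.2⟩
            map_one' := rfl
            map_mul' := fun _ _ => rfl }, (Mo χ').subtype, ?_, Subtype.val_injective,
          fun g => rfl, ?_⟩
        · rintro ⟨x, hx⟩
          obtain ⟨g, rfl⟩ := QuotientGroup.mk'_surjective _ x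
          exact ⟨⟨g, hx⟩, rfl⟩
        · refine fpm_congr (Mo.congr e χ' χT hχT) ?_
          exact ih (k + 1) (I.erase m) _ χT hI' (supp_proj _ _) (vs_proj hv) (cn_proj hc)
            (fun i hi => hΓ i (Finset.mem_of_mem_erase hi)) hXT
      · have hB : ∃ n ∈ (KS P (I.erase m)).subgroupOf P, 0 < ht χ n := by
          push Not at hA
          obtain ⟨n, hn, hn1⟩ := hA
          have hn0 : ht χ n ≠ 0 := fun h => hn1 h
          rcases lt_or_gt_of_ne hn0 with h | h
          · exact ⟨n⁻¹, Subgroup.inv_mem _ hn, by rw [ht_inv]; linarith⟩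
          · exact ⟨n, hn, h⟩
        refine ⟨P ⧸ ((KS P (I.erase m)).subgroupOf P), inferInstance, inferInstance,
          pK ((KS P (I.erase m)).subgroupOf P) χ, MonoidHom.id _,
          pK_surj _ χ hB, Function.injective_id, fun g => rfl, fpm_of_fpg hT'⟩
    obtain ⟨M', i1, i2, p, j, hp, hj, hjp, hM'⟩ := key
    rcases k with _ | k
    · exact mfib1 _ _ (inf_bot P hs) χ hχ p hp j hj hjp hM' hfg hQ1
    · have hK : FPm (ZM (Mo (χ.comp ((KS P {m}).subgroupOf P).subtype))) (k + 1)
          (TrM (Mo (χ.comp ((KS P {m}).subgroupOf P).subtype))) := by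
        refine fpm_congr (Mo.congr (Subgroup.subgroupOfEquivOfLe (KS_le P {m})) _
          (χ.comp (Subgroup.inclusion (KS_le P {m}))) ?_) ?_
        · intro g
          rfl
        · exact ih (k + 1) (I.erase m) _ _ hI' (supp_ker hs) (vs_ker hm hv) (cn_ker hm hc)
            (fun i hi => (hΓ i (Finset.mem_of_mem_erase hi)).mono (by omega)) (xn_ker hm hX)
      exact mfib _ _ (inf_bot P hs) χ hχ p hp j hj hjp hK hM' hE' hfg (hQ2 _) hQ1

end Pool.Agent.TH18.MS
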