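import Pool.Agent.TH18.MS.Pack

/-! Comparison of a monoid with its quotient. -/

set_option autoImplicit false

namespace Pool.Agent.TH18.MS

open Pool.Agent.TH18.NN

theorem tot_of_single {G : Type} [Monoid G] {a b : ℕ}
    (f : (Fin a → ZM G) →ₗ[ZM G] (Fin b → ZM G))
    (h : ∀ i, tot (f (Pi.single i 1)) = 1) (x : Fin a → ZM G) : tot (f x) = tot x := by
  conv_lhs => rw [pi_sum x, map_sum, tot_sum]
  unfold tot
  refine Finset.sum_congr rfl fun i _ => ?_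
  rw [map_smul]
  have := tot_smul (x i) (f (Pi.single i 1))
  rw [h, mul_one] at this
  exact this

section wfg
variable {N G : Type} [Monoid N] [Monoid G] (ι : N →* G) {n : ℕ} (F : NResM N (n + 1))
  {r : ℕ} (s : Fin r → G) (Φ : ∀ i, CM ι F (s i))

/-- unfolded form of `WFG` -/
def WFG' : Prop :=
  ∃ B : Finset (Fin (F.k (n + 1)) → ZM G), (∀ b ∈ B, DD ι F n b = 0) ∧
    ∀ x, DD ι F n x = 0 → ∃ e : Fin r → (Fin (F.k (n + 1)) → ZM G), (∀ i, DD ι F n (e i) = 0) ∧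
      x - ∑ i, ((Φ i).μ (n + 1) (e i) - e i) ∈
        Submodule.span (ZM G) (B : Set (Fin (F.k (n + 1)) → ZM G))

theorem wfg_iff {Q : Type} [Group Q] (π : G →* Q) :
    WFG (XX π F) (xd ι π F) (mm ι π F s Φ) (n + 1) ↔ WFG' ι F s Φ := Iff.rfl

end wfg

section link
variable {N P G : Type} [Monoid N] [Monoid P] [Monoid G] (ι : N →* P)
  (hN : ∀ (g : P) (ν : N), ∃ ν' : N, ι ν * g = g * ι ν')
  (p : P →* G) {n : ℕ} (F : NResM N (n + 1)) {r : ℕ} (s : Fin r → P) (Φ : ∀ i, CM ι F (s i))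

theorem DD_push (j : ℕ) : DD (p.comp ι) F j = ind (pushM p) (DD ι F j) := by
  unfold DD
  rw [ind_ind, pushM_comp]

/-- push forward of chain endomorphisms -/
noncomputable def CM.push {g : P} (Ψ : CM ι F g) : CM (p.comp ι) F (p g) where
  μ j := ind (pushM p) (Ψ.μ j)
  typ j := by
    intro i
    obtain ⟨v, hv⟩ := Ψ.typ j i
    refine ⟨v, ?_⟩
    rw [ind_single, hv, vm_smul, pushM_of, vm_vm, pushM_comp]
  aug := by
    apply tot_of_single
    intro i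
    rw [ind_single, tot_vm, Ψ.aug, tot_single]
  comm j hj x := by
    have h1 : DD ι F j ∘ₗ Ψ.μ (j + 1) = Ψ.μ j ∘ₗ DD ι F j := LinearMap.ext (Ψ.comm j hj)
    have h2 : DD (p.comp ι) F j ∘ₗ ind (pushM p) (Ψ.μ (j + 1)) =
        ind (pushM p) (Ψ.μ j) ∘ₗ DD (p.comp ι) F j := by
      rw [DD_push, ← ind_comp, ← ind_comp, h1]
    exact LinearMap.congr_fun h2 x

theorem CM.cyc {g : P} (Ψ : CM ι F g) (x : Fin (F.k (n + 1)) → ZM P) (hx : DD ι F n x = 0) :
    DD ι F n (Ψ.μ (n + 1) x) = 0 := by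
  rw [Ψ.comm n le_rfl, hx, map_zero]

/-- the map `e ↦ ∑ (μ_i e_i - e_i)` on cycles -/
noncomputable def gg : (Fin r → LinearMap.ker (DD ι F n)) →ₗ[ZM P] (Fin (F.k (n + 1)) → ZM P) :=
  ∑ i, (((Φ i).μ (n + 1) - LinearMap.id) ∘ₗ (LinearMap.ker (DD ι F n)).subtype) ∘ₗ LinearMap.proj i

theorem gg_apply (e : Fin r → LinearMap.ker (DD ι F n)) :
    gg ι F s Φ e = ∑ i, ((Φ i).μ (n + 1) (e i).1 - (e i).1) := by
  unfold gg
  rw [LinearMap.sum_apply]
  rfl

theorem U1 (i : Fin r) (x : Fin (F.k (n + 1)) → ZM P) (hx : DD ι F n x = 0) :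
    (Φ i).μ (n + 1) x - x ∈ LinearMap.range (gg ι F s Φ) := by
  refine ⟨Pi.single i ⟨x, hx⟩, ?_⟩
  rw [gg_apply, Finset.sum_eq_single i]
  · rw [Pi.single_eq_same]
  · intro j _ hj
    rw [Pi.single_eq_of_ne hj]
    show (Φ j).μ (n + 1) 0 - 0 = 0
    rw [map_zero, sub_zero]
  · intro h; exact absurd (Finset.mem_univ _) h

include hN in
theorem U2 (l : List (Fin r)) : ∃ Ψ : CM ι F (l.map s).prod, ∀ x, DD ι F n x = 0 →
    Ψ.μ (n + 1) x - x ∈ LinearMap.range (gg ι F s Φ) := by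
  induction l with
  | nil =>
    refine ⟨CM.one ι F, fun x _ => ?_⟩
    show x - x ∈ _
    rw [sub_self]; exact zero_mem _
  | cons i l ih =>
    obtain ⟨Ψ, hΨ⟩ := ih
    refine ⟨CM.comp ι F hN (Φ i) Ψ, fun x hx => ?_⟩
    show Ψ.μ (n + 1) ((Φ i).μ (n + 1) x) - x ∈ _
    have h1 := hΨ _ ((Φ i).cyc ι F x hx)
    have h2 := U1 ι F s Φ i x hx
    have := add_mem h1 h2
    rwa [sub_add_sub_cancel] at this

/-- change of representative along an equation -/
noncomputable def CM.lower' {g g0 : P} {ν : N} (h : g = g0 * ι ν) (Ψ : CM ι F g) : CM ι F g0 where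
  μ := Ψ.μ
  typ j := fun i => InC.lower ι (h ▸ Ψ.typ j i : InC ι (g0 * ι ν) (Ψ.μ j (Pi.single i 1)))
  aug := Ψ.aug
  comm := Ψ.comm

include hN in
theorem U3 [IsCancelMul P] (hι : Function.Injective ι) (h : P)
    (hh : ∀ ν : N, ι ν * h = h * ι ν)
    (l : List (Fin r)) (g0 : P) (ν1 ν2 : N) (hl1 : h = g0 * ι ν1)
    (hl2 : (l.map s).prod = g0 * ι ν2) :
    ∃ T : Finset (Fin (F.k (n + 1)) → ZM P), (∀ b ∈ T, DD ι F n b = 0) ∧
      ∀ x, DD ι F n x = 0 → rm h _ x - x ∈ LinearMap.range (gg ι F s Φ) ⊔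
        Submodule.span (ZM P) (T : Set (Fin (F.k (n + 1)) → ZM P)) := by
  classical
  obtain ⟨Ψ, hΨ⟩ := U2 ι hN F s Φ l
  obtain ⟨τ, h1, h2⟩ := homotopy_top ι F hN hι ((rmCM ι F h hh).lower' ι F hl1)
    (Ψ.lower' ι F hl2)
  refine ⟨Finset.univ.image (fun i => τ (Pi.single i 1)), ?_, ?_⟩
  · intro b hb
    obtain ⟨i, _, rfl⟩ := Finset.mem_image.1 hb
    exact h1 _
  · intro x hx
    have h3 := h2 x hx
    have h4 : rm h _ x - x = (Ψ.μ (n + 1) x - x) + τ x := by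
      rw [← h3]
      show rm h _ x - x = (Ψ.μ (n + 1) x - x) + (rm h _ x - Ψ.μ (n + 1) x)
      abel
    rw [h4]
    refine Submodule.add_mem_sup (hΨ x hx) ?_
    rw [pi_sum x, map_sum]
    refine Submodule.sum_mem _ fun i _ => ?_
    rw [map_smul]
    exact Submodule.smul_mem _ _ (Submodule.subset_span
      (Finset.mem_coe.2 (Finset.mem_image.2 ⟨i, Finset.mem_univ _, rfl⟩)))

theorem rm_mul (g h : P) (a : ℕ) (x : Fin a → ZM P) : rm (g * h) a x = rm h a (rm g a x) := by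
  funext i
  rw [rm_apply, rm_apply, rm_apply, map_mul, mul_assoc]

theorem rm_one (a : ℕ) (x : Fin a → ZM P) : rm (1 : P) a x = x := by
  funext i
  rw [rm_apply, map_one, mul_one]

theorem rm_cyc (h : P) (hh : ∀ ν : N, ι ν * h = h * ι ν) (x : Fin (F.k (n + 1)) → ZM P)
    (hx : DD ι F n x = 0) : DD ι F n (rm h _ x) = 0 := (rmCM ι F h hh).cyc ι F x hx

/-- the elements acting trivially modulo `U` -/
def H0 (U : Submodule (ZM P) (Fin (F.k (n + 1)) → ZM P)) : Submonoid P where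
  carrier := {h | (∀ ν : N, ι ν * h = h * ι ν) ∧ ∀ x, DD ι F n x = 0 → rm h _ x - x ∈ U}
  one_mem' := ⟨fun ν => by rw [mul_one, one_mul], fun x _ => by
    rw [rm_one, sub_self]; exact zero_mem _⟩
  mul_mem' := by
    rintro g h ⟨h1, h2⟩ ⟨h3, h4⟩
    refine ⟨fun ν => by rw [← mul_assoc, h1, mul_assoc, h3, mul_assoc], fun x hx => ?_⟩
    rw [rm_mul]
    have := add_mem (h4 _ (rm_cyc ι F g h1 x hx)) (h2 x hx)
    rwa [sub_add_sub_cancel] at this

theorem mem_H0 (U : Submodule (ZM P) (Fin (F.k (n + 1)) → ZM P)) (h : P) : h ∈ H0 ι F U ↔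
    (∀ ν : N, ι ν * h = h * ι ν) ∧ ∀ x, DD ι F n x = 0 → rm h _ x - x ∈ U := Iff.rfl

/-- right cancellation -/
theorem H0_cancel (U : Submodule (ZM P) (Fin (F.k (n + 1)) → ZM P)) (g h : P)
    (hg : ∀ ν : N, ι ν * g = g * ι ν) (hh : h ∈ H0 ι F U) (hgh : g * h ∈ H0 ι F U) :
    g ∈ H0 ι F U := by
  refine ⟨hg, fun x hx => ?_⟩
  have h1 := hgh.2 x hx
  rw [rm_mul] at h1
  have h2 := hh.2 _ (rm_cyc ι F g hg x hx)
  have := sub_mem h1 h2
  rwa [sub_sub_sub_cancel_left] at this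

theorem mu_rm {g : P} {a : ℕ} (f : (Fin a → ZM P) →ₗ[ZM P] (Fin a → ZM P)) (hf : TypeG ι g f)
    (h h' : P) (hc : h' * g = g * h) (hh : ∀ ν : N, ι ν * h = h * ι ν) (x : Fin a → ZM P) :
    f (rm h' a x) = rm h a (f x) := by
  have h1 : f ∘ₗ rm h' a = rm h a ∘ₗ f := by
    apply lin_ext
    intro i
    show f (rm h' a (Pi.single i 1)) = rm h a (f (Pi.single i 1))
    rw [rm_single, map_smul]
    obtain ⟨v, hv⟩ := hf i
    rw [hv, map_smul, rm_vm ι h hh, smul_smul, smul_smul, ← map_mul, ← map_mul, hc]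
  exact LinearMap.congr_fun h1 x

theorem H0_conj (U : Submodule (ZM P) (Fin (F.k (n + 1)) → ZM P))
    (hU : LinearMap.range (gg ι F s Φ) ≤ U) (i : Fin r) (h h' : P) (hh : h ∈ H0 ι F U)
    (hc : h' * s i = s i * h) (hh' : ∀ ν : N, ι ν * h' = h' * ι ν) :
    h' ∈ H0 ι F U := by
  obtain ⟨h1, h2⟩ := hh
  refine ⟨hh', fun x hx => ?_⟩
  have h4 := hU (U1 ι F s Φ i _ (rm_cyc ι F _ hh' x hx))
  rw [mu_rm ι _ ((Φ i).typ (n + 1)) h h' hc h1] at h4
  have h5 := h2 _ ((Φ i).cyc ι F x hx)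
  have h6 := hU (U1 ι F s Φ i x hx)
  have h7 := add_mem (sub_mem h5 h4) h6
  have e : rm h' (F.k (n + 1)) x - x =
    rm h (F.k (n + 1)) ((Φ i).μ (n + 1) x) - (Φ i).μ (n + 1) x -
      (rm h (F.k (n + 1)) ((Φ i).μ (n + 1) x) - rm h' (F.k (n + 1)) x) +
      ((Φ i).μ (n + 1) x - x) := by abel
  rw [e]
  exact h7

variable [IsCancelMul P] [IsCancelMul G] (KK : Set P) (hKc : ∀ h ∈ KK, ∀ ν : N, ι ν * h = h * ι ν)
  (hKconj : ∀ g : P, ∀ h ∈ KK, ∃ h' ∈ KK, h' * g = g * h)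

include hKc hKconj in
theorem H0_conj_all (U : Submodule (ZM P) (Fin (F.k (n + 1)) → ZM P))
    (hU : LinearMap.range (gg ι F s Φ) ≤ U)
    (hgen : ∀ g : P, ∃ (l : List (Fin r)) (g0 : P) (ν1 ν2 : N), g = g0 * ι ν1 ∧
      (l.map s).prod = g0 * ι ν2)
    (g h h' : P) (hK : h ∈ KK) (hK' : h' ∈ KK) (hh : h ∈ H0 ι F U) (hc : h' * g = g * h) :
    h' ∈ H0 ι F U := by
  obtain ⟨l, g0, ν1, ν2, h1, h2⟩ := hgen g
  have h3 : h' * g0 = g0 * h := by
    have h4 : (h' * g0) * ι ν1 = (g0 * h) * ι ν1 := by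
      rw [mul_assoc, ← h1, hc, h1, mul_assoc, mul_assoc, hKc h hK]
    exact mul_right_cancel h4
  have h4 : h' * (l.map s).prod = (l.map s).prod * h := by
    rw [h2, ← mul_assoc, h3, mul_assoc, mul_assoc, hKc h hK]
  clear h1 h2 h3 hc
  induction l generalizing h' with
  | nil =>
    have : h' = h := by simpa using h4
    rw [this]; exact hh
  | cons i l ih =>
    obtain ⟨h'', hK'', hc''⟩ := hKconj (l.map s).prod h hK
    have h5 := ih h'' hK'' hc''
    refine H0_conj ι F s Φ U hU i h'' h' h5 ?_ (hKc h' hK')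
    rw [List.map_cons, List.prod_cons] at h4
    have h6 : (h' * s i) * (l.map s).prod = (s i * h'') * (l.map s).prod := by
      rw [mul_assoc, h4, mul_assoc, mul_assoc, hc'']
    exact mul_right_cancel h6

variable {L Q : Type} [Monoid L] [Monoid Q] (π : P →* L) (π' : G →* Q)
  (h1 : ∀ ν, π (ι ν) = 1)
  (hd : ∀ g g', π g = π g' → ∃ g0 ν ν', g = g0 * ι ν ∧ g' = g0 * ι ν')
  (h1' : ∀ ν, π' (p (ι ν)) = 1)
  (hd' : ∀ g g', π' g = π' g' → ∃ g0 ν ν', g = g0 * p (ι ν) ∧ g' = g0 * p (ι ν'))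
  (hι : Function.Injective ι) (hι' : Function.Injective (p.comp ι))
  (hπ : Function.Surjective π) (hπ' : Function.Surjective π')
  (hp : Function.Surjective p)
  (hfib : ∀ g g', p g = p g' → ∃ h ∈ KK, g' = g * h ∨ g = g' * h)

/-- cycles on a single translate -/
theorem tr_cyc (g : P) (z : Fin (F.k (n + 1)) → ZM N) (hz : F.d n z = 0) :
    DD ι F n (MonoidAlgebra.of ℤ P g • vm (pushM ι) z) = 0 := by
  rw [map_smul]
  have : DD ι F n (vm (pushM ι) z) = vm (pushM ι) (F.d n z) := ind_vm _ _ _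
  rw [this, hz, vm_zero, smul_zero]

include hKc hfib in
theorem fib_U (U : Submodule (ZM P) (Fin (F.k (n + 1)) → ZM P))
    (hU : ∀ h ∈ KK, h ∈ H0 ι F U) (g g' : P) (hg : p g = p g')
    (z : Fin (F.k (n + 1)) → ZM N) (hz : F.d n z = 0) :
    MonoidAlgebra.of ℤ P g • vm (pushM ι) z - MonoidAlgebra.of ℤ P g' • vm (pushM ι) z ∈ U := by
  obtain ⟨h, hh, h2 | h2⟩ := hfib g g' hg
  · have h3 := (hU h hh).2 _ (tr_cyc ι F g z hz)
    rw [map_smul, rm_vm ι h (hKc h hh), smul_smul, ← map_mul, ← h2] at h3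
    have := neg_mem h3
    rwa [neg_sub] at this
  · have h3 := (hU h hh).2 _ (tr_cyc ι F g' z hz)
    rw [map_smul, rm_vm ι h (hKc h hh), smul_smul, ← map_mul, ← h2] at h3
    exact h3

theorem of_mul_vm (g : P) (ν : N) {a : ℕ} (z : Fin a → ZM N) :
    MonoidAlgebra.of ℤ P (g * ι ν) • vm (pushM ι) z =
      MonoidAlgebra.of ℤ P g • vm (pushM ι) (MonoidAlgebra.of ℤ N ν • z) := by
  rw [vm_smul, pushM_of, smul_smul, ← map_mul]

include hKc hfib h1' hd' hπ' hp in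
/-- elements supported over one point of `Q` -/
theorem fib_sum (U : Submodule (ZM P) (Fin (F.k (n + 1)) → ZM P))
    (hU : ∀ h ∈ KK, h ∈ H0 ι F U) (q : Q) (x : Fin (F.k (n + 1)) → ZM P)
    (hx : x ∈ AddSubmonoid.closure {y : Fin (F.k (n + 1)) → ZM P | ∃ g : P,
      ∃ z : Fin (F.k (n + 1)) → ZM N, π' (p g) = q ∧ F.d n z = 0 ∧
      y = MonoidAlgebra.of ℤ P g • vm (pushM ι) z}) :
    ∃ γ0 : G, π' γ0 = q ∧ ∃ w : Fin (F.k (n + 1)) → ZM N, F.d n w = 0 ∧
      vm (pushM p) x = MonoidAlgebra.of ℤ G γ0 • vm (pushM (p.comp ι)) w ∧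
      ∀ g0, p g0 = γ0 → x - MonoidAlgebra.of ℤ P g0 • vm (pushM ι) w ∈ U := by
  induction hx using AddSubmonoid.closure_induction with
  | mem x hx =>
    obtain ⟨g, z, hg, hz, rfl⟩ := hx
    refine ⟨p g, hg, z, hz, ?_, ?_⟩
    · rw [vm_smul, pushM_of, vm_vm, pushM_comp]
    · intro g0 hg0
      exact fib_U ι p F KK hKc hfib U hU g g0 hg0.symm z hz
  | zero =>
    obtain ⟨γ, hγ⟩ := hπ' q
    refine ⟨γ, hγ, 0, map_zero _, ?_, ?_⟩
    · rw [vm_zero, vm_zero, smul_zero]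
    · intro g0 _
      rw [vm_zero, smul_zero, sub_zero]; exact zero_mem _
  | add x y _ _ hx hy =>
    obtain ⟨γ1, hγ1, w1, hw1, hv1, hU1⟩ := hx
    obtain ⟨γ2, hγ2, w2, hw2, hv2, hU2⟩ := hy
    obtain ⟨γ0, ν1, ν2, he1, he2⟩ := hd' γ1 γ2 (by rw [hγ1, hγ2])
    obtain ⟨g1, hg1⟩ := hp γ0
    refine ⟨γ0, ?_, MonoidAlgebra.of ℤ N ν1 • w1 + MonoidAlgebra.of ℤ N ν2 • w2, ?_, ?_, ?_⟩
    · rw [← hγ1, he1, map_mul, h1', mul_one]
    · rw [map_add, map_smul, map_smul, hw1, hw2, smul_zero, smul_zero, add_zero]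
    · rw [vm_add, hv1, hv2, he1, he2, vm_add, smul_add]
      congr 1
      · exact of_mul_vm (p.comp ι) γ0 ν1 w1
      · exact of_mul_vm (p.comp ι) γ0 ν2 w2
    · intro g0 hg0
      have h3 := hU1 (g0 * ι ν1) (by rw [map_mul, hg0, he1])
      have h4 := hU2 (g0 * ι ν2) (by rw [map_mul, hg0, he2])
      rw [of_mul_vm] at h3 h4
      rw [vm_add, smul_add]
      have h5 := add_mem h3 h4
      have e : x + y - (MonoidAlgebra.of ℤ P g0 • vm (pushM ι) (MonoidAlgebra.of ℤ N ν1 • w1) +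
        MonoidAlgebra.of ℤ P g0 • vm (pushM ι) (MonoidAlgebra.of ℤ N ν2 • w2)) =
        x - MonoidAlgebra.of ℤ P g0 • vm (pushM ι) (MonoidAlgebra.of ℤ N ν1 • w1) +
        (y - MonoidAlgebra.of ℤ P g0 • vm (pushM ι) (MonoidAlgebra.of ℤ N ν2 • w2)) := by abel
      rw [e]
      exact h5

/-- components of translates -/
theorem compv_tr_pos (q : Q) (g : P) (hg : π' (p g) = q) {a : ℕ} (z : Fin a → ZM N)
    (h1' : ∀ ν, π' (p (ι ν)) = 1) :
    compv (π'.comp p) q a (MonoidAlgebra.of ℤ P g • vm (pushM ι) z) =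
      MonoidAlgebra.of ℤ P g • vm (pushM ι) z := by
  funext i
  rw [compv_apply]
  show comp (π'.comp p) q (MonoidAlgebra.of ℤ P g * pushM ι (z i)) =
    MonoidAlgebra.of ℤ P g * pushM ι (z i)
  rw [comp_mul ι (π'.comp p) h1', comp_of_pos _ q g hg]

theorem compv_tr_neg (q : Q) (g : P) (hg : π' (p g) ≠ q) {a : ℕ} (z : Fin a → ZM N)
    (h1' : ∀ ν, π' (p (ι ν)) = 1) :
    compv (π'.comp p) q a (MonoidAlgebra.of ℤ P g • vm (pushM ι) z) = 0 := by
  funext i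
  rw [compv_apply]
  show comp (π'.comp p) q (MonoidAlgebra.of ℤ P g * pushM ι (z i)) = 0
  rw [comp_mul ι (π'.comp p) h1', comp_of_neg _ q g hg, zero_mul]

theorem push_comp' (q : Q) (c : ZM P) :
    pushM p (comp (π'.comp p) q c) = comp π' q (pushM p c) := by
  induction c using MonoidAlgebra.induction_on with
  | of g =>
    by_cases h : π' (p g) = q
    · rw [comp_of_pos _ q g h, pushM_of, comp_of_pos _ q (p g) h]
    · rw [comp_of_neg _ q g h, pushM_of, comp_of_neg _ q (p g) h, map_zero]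
  | add a b ha hb => rw [map_add, map_add, map_add, map_add, ha, hb]
  | smul r a ha => rw [map_zsmul, map_zsmul, map_zsmul, map_zsmul, ha]

include h1 hd h1' hd' hι hι' hπ hπ' hp hKc hfib in
/-- cycles with trivial image -/
theorem ker_vm (U : Submodule (ZM P) (Fin (F.k (n + 1)) → ZM P))
    (hU : ∀ h ∈ KK, h ∈ H0 ι F U) (x : Fin (F.k (n + 1)) → ZM P) (hx : DD ι F n x = 0)
    (hx0 : vm (pushM p) x = 0) : x ∈ U := by
  have h2 := ker_closure ι π h1 hd hι hπ (F.d n) x hx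
  obtain ⟨Q0, hQ⟩ := compv_sum (π'.comp p) x
  rw [hQ]
  refine Submodule.sum_mem _ fun q _ => ?_
  have h3 : compv (π'.comp p) q _ x ∈ AddSubmonoid.closure {y : Fin (F.k (n + 1)) → ZM P |
      ∃ g : P, ∃ z : Fin (F.k (n + 1)) → ZM N, π' (p g) = q ∧ F.d n z = 0 ∧
      y = MonoidAlgebra.of ℤ P g • vm (pushM ι) z} := by
    clear hx0 hQ hx
    induction h2 using AddSubmonoid.closure_induction with
    | mem x hx =>
      obtain ⟨g, z, hz, rfl⟩ := hx
      by_cases hg : π' (p g) = q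
      · rw [compv_tr_pos ι p π' q g hg z h1']
        exact AddSubmonoid.subset_closure ⟨g, z, hg, hz, rfl⟩
      · rw [compv_tr_neg ι p π' q g hg z h1']
        exact zero_mem _
    | zero => rw [map_zero]; exact zero_mem _
    | add x y _ _ hx hy => rw [map_add]; exact add_mem hx hy
  obtain ⟨γ0, _, w, hw, hv, hU0⟩ := fib_sum ι p F KK hKc π' h1' hd' hπ' hp hfib U hU q _ h3
  obtain ⟨g0, hg0⟩ := hp γ0
  have h4 : vm (pushM p) (compv (π'.comp p) q _ x) = 0 := by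
    funext i
    show pushM p (comp (π'.comp p) q (x i)) = 0
    rw [push_comp']
    have : pushM p (x i) = 0 := congrFun hx0 i
    rw [this, map_zero]
  rw [h4] at hv
  have h5 : w = 0 := of_smul_vm_zero (p.comp ι) hι' hv.symm
  have h6 := hU0 g0 hg0
  rw [h5, vm_zero, smul_zero, sub_zero] at h6
  exact h6

theorem vm_DD (x : Fin (F.k (n + 1)) → ZM P) :
    vm (pushM p) (DD ι F n x) = DD (p.comp ι) F n (vm (pushM p) x) := by
  rw [DD_push, ind_vm]

include h1' hd' hι' hπ' hp in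
/-- lifting cycles -/
theorem lift_cyc (y : Fin (F.k (n + 1)) → ZM G) (hy : DD (p.comp ι) F n y = 0) :
    ∃ x, DD ι F n x = 0 ∧ vm (pushM p) x = y := by
  have h1 := ker_closure (p.comp ι) π' h1' hd' hι' hπ' (F.d n) y hy
  let K : AddSubmonoid (Fin (F.k (n + 1)) → ZM G) :=
    { carrier := {y | ∃ x, DD ι F n x = 0 ∧ vm (pushM p) x = y}
      zero_mem' := ⟨0, map_zero _, vm_zero _⟩
      add_mem' := by
        rintro _ _ ⟨x, hx, rfl⟩ ⟨y, hy, rfl⟩
        exact ⟨x + y, by rw [map_add, hx, hy, add_zero], vm_add _ _ _⟩ }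
  have key : AddSubmonoid.closure {y : Fin (F.k (n + 1)) → ZM G | ∃ g : G,
      ∃ z : Fin (F.k (n + 1)) → ZM N, F.d n z = 0 ∧
      y = MonoidAlgebra.of ℤ G g • vm (pushM (p.comp ι)) z} ≤ K := by
    rw [AddSubmonoid.closure_le]
    rintro _ ⟨γ, z, hz, rfl⟩
    obtain ⟨g, rfl⟩ := hp γ
    refine ⟨MonoidAlgebra.of ℤ P g • vm (pushM ι) z, tr_cyc ι F g z hz, ?_⟩
    rw [vm_smul, pushM_of, vm_vm, pushM_comp]
  exact key h1

/-- finite generation of the kernel elements in a weak sense -/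
def KGen (H : Finset P) : Prop := (∀ h ∈ H, h ∈ KK) ∧ ∀ A : P → Prop, (∀ h ∈ H, A h) → A 1 →
  (∀ a ∈ KK, ∀ b ∈ KK, A a → A b → A (a * b)) →
  (∀ a ∈ KK, ∀ b ∈ KK, A b → A (a * b) → A a) →
  (∀ g, ∀ h ∈ KK, ∀ h' ∈ KK, h' * g = g * h → A h → A h') → ∀ h ∈ KK, A h

include hN h1 hd h1' hd' hι hι' hπ hπ' hp hKc hKconj hfib in
/-- **The comparison.** -/
theorem link
    (hgen : ∀ g : P, ∃ (l : List (Fin r)) (g0 : P) (ν1 ν2 : N), g = g0 * ι ν1 ∧
      (l.map s).prod = g0 * ι ν2)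
    (H : Finset P) (hH : KGen KK H)
    (hW : WFG' (p.comp ι) F (fun i => p (s i)) (fun i => (Φ i).push ι p F)) :
    WFG' ι F s Φ := by
  classical
  -- finitely many elements of the kernel
  have h1h : ∀ h : P, ∃ T : Finset (Fin (F.k (n + 1)) → ZM P), (∀ b ∈ T, DD ι F n b = 0) ∧
      (h ∈ H → ∀ x, DD ι F n x = 0 → rm h _ x - x ∈ LinearMap.range (gg ι F s Φ) ⊔
        Submodule.span (ZM P) (T : Set (Fin (F.k (n + 1)) → ZM P))) := by
    intro h
    by_cases hh : h ∈ H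
    · obtain ⟨l, g0, ν1, ν2, hl1, hl2⟩ := hgen h
      obtain ⟨T, hT1, hT2⟩ := U3 ι hN F s Φ hι h (hKc h (hH.1 h hh)) l g0 ν1 ν2 hl1 hl2
      exact ⟨T, hT1, fun _ => hT2⟩
    · exact ⟨∅, by simp, fun h' => absurd h' hh⟩
  choose T hT1 hT2 using h1h
  obtain ⟨B, hB1, hB2⟩ := hW
  -- lift the generators
  have h3 : ∀ b : Fin (F.k (n + 1)) → ZM G, ∃ x, DD ι F n x = 0 ∧
      (b ∈ B → vm (pushM p) x = b) := by
    intro b
    by_cases hb : b ∈ B
    · obtain ⟨x, hx1, hx2⟩ := lift_cyc ι p F π' h1' hd' hι' hπ' hp b (hB1 b hb)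
      exact ⟨x, hx1, fun _ => hx2⟩
    · exact ⟨0, map_zero _, fun h => absurd h hb⟩
  choose L' hL1 hL2 using h3
  let B' : Finset (Fin (F.k (n + 1)) → ZM P) := B.image L' ∪ H.biUnion T
  have hB' : ∀ b ∈ B', DD ι F n b = 0 := by
    intro b hb
    rcases Finset.mem_union.1 hb with hb | hb
    · obtain ⟨c, _, rfl⟩ := Finset.mem_image.1 hb
      exact hL1 c
    · obtain ⟨h, _, hb⟩ := Finset.mem_biUnion.1 hb
      exact hT1 h b hb
  let U : Submodule (ZM P) (Fin (F.k (n + 1)) → ZM P) :=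
    LinearMap.range (gg ι F s Φ) ⊔ Submodule.span (ZM P) (B' : Set (Fin (F.k (n + 1)) → ZM P))
  have hU0 : LinearMap.range (gg ι F s Φ) ≤ U := le_sup_left
  have hUH : ∀ h ∈ KK, h ∈ H0 ι F U := by
    refine hH.2 (fun h => h ∈ H0 ι F U) ?_ (one_mem _) (fun a _ b _ ha hb => mul_mem ha hb)
      (fun a ha b _ hb hab => H0_cancel ι F U a b (hKc a ha) hb hab)
      (fun g h hh h' hh' hc h2 => H0_conj_all ι F s Φ KK hKc hKconj U hU0 hgen g h h' hh hh' h2 hc)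
    intro h hh
    refine ⟨hKc h (hH.1 h hh), fun x hx => ?_⟩
    have hsub : Submodule.span (ZM P) (T h : Set (Fin (F.k (n + 1)) → ZM P)) ≤
        Submodule.span (ZM P) (B' : Set (Fin (F.k (n + 1)) → ZM P)) := by
      apply Submodule.span_mono
      intro b hb
      exact Finset.mem_coe.2 (Finset.mem_union_right _ (Finset.mem_biUnion.2 ⟨h, hh, hb⟩))
    exact (sup_le (hU0) (hsub.trans le_sup_right) : LinearMap.range (gg ι F s Φ) ⊔
      Submodule.span (ZM P) (T h : Set (Fin (F.k (n + 1)) → ZM P)) ≤ U) (hT2 h hh x hx)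
  -- all cycles are in `U`
  have hall : ∀ x, DD ι F n x = 0 → x ∈ U := by
    intro x hx
    obtain ⟨e, he1, he2⟩ := hB2 (vm (pushM p) x) (by rw [← vm_DD, hx, vm_zero])
    have h4 : ∀ i, ∃ e' : Fin (F.k (n + 1)) → ZM P, DD ι F n e' = 0 ∧ vm (pushM p) e' = e i :=
      fun i => lift_cyc ι p F π' h1' hd' hι' hπ' hp (e i) (he1 i)
    choose e' he1' he2' using h4
    -- lift the remainder
    have h5 : ∀ y ∈ Submodule.span (ZM G) (B : Set (Fin (F.k (n + 1)) → ZM G)),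
        ∃ y' ∈ U, DD ι F n y' = 0 ∧ vm (pushM p) y' = y := by
      intro y hy
      induction hy using Submodule.span_induction with
      | mem y hy =>
        refine ⟨L' y, ?_, hL1 y, hL2 y hy⟩
        apply Submodule.mem_sup_right
        apply Submodule.subset_span
        exact Finset.mem_coe.2 (Finset.mem_union_left _ (Finset.mem_image.2 ⟨y, hy, rfl⟩))
      | zero => exact ⟨0, zero_mem _, map_zero _, vm_zero _⟩
      | add a b _ _ ha hb =>
        obtain ⟨a', ha1, ha2, rfl⟩ := ha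
        obtain ⟨b', hb1, hb2, rfl⟩ := hb
        exact ⟨a' + b', add_mem ha1 hb1, by rw [map_add, ha2, hb2, add_zero], vm_add _ _ _⟩
      | smul c a _ ha =>
        obtain ⟨a', ha1, ha2, rfl⟩ := ha
        obtain ⟨c', rfl⟩ := pushM_surj p hp c
        exact ⟨c' • a', Submodule.smul_mem _ _ ha1, by rw [map_smul, ha2, smul_zero],
          vm_smul _ _ _⟩
    obtain ⟨y', hy1, hy2, hy3⟩ := h5 _ he2
    let w : Fin (F.k (n + 1)) → ZM P := gg ι F s Φ (fun i => ⟨e' i, he1' i⟩)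
    have hw : w = ∑ i, ((Φ i).μ (n + 1) (e' i) - e' i) := gg_apply ι F s Φ _
    have hwU : w ∈ U := hU0 ⟨_, rfl⟩
    have hwc : DD ι F n w = 0 := by
      rw [hw, map_sum]
      refine Finset.sum_eq_zero fun i _ => ?_
      rw [map_sub, (Φ i).cyc ι F _ (he1' i), he1' i, sub_zero]
    have hwv : vm (pushM p) w = ∑ i, (((Φ i).push ι p F).μ (n + 1) (e i) - e i) := by
      rw [hw, vm_sum]
      refine Finset.sum_congr rfl fun i _ => ?_
      rw [vm_sub, he2']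
      congr 1
      show _ = ind (pushM p) ((Φ i).μ (n + 1)) (e i)
      rw [← he2' i, ind_vm]
    have h6 : x - w - y' ∈ U := by
      refine ker_vm ι p F KK hKc π π' h1 hd h1' hd' hι hι' hπ hπ' hp hfib U hUH _ ?_ ?_
      · rw [map_sub, map_sub, hx, hwc, hy2, sub_zero, sub_zero]
      · rw [vm_sub, vm_sub, hwv, hy3, sub_self]
    have h7 := add_mem (add_mem h6 hy1) hwU
    have e7 : x - w - y' + y' + w = x := by abel
    rwa [e7] at h7
  refine ⟨B', hB', fun x hx => ?_⟩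
  obtain ⟨a, ⟨e, rfl⟩, b, hb, hab⟩ := Submodule.mem_sup.1 (hall x hx)
  refine ⟨fun i => (e i).1, fun i => (e i).2, ?_⟩
  rw [← gg_apply, ← hab, add_sub_cancel_left]
  exact hb

end link

end Pool.Agent.TH18.MS
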