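import Pool.Agent.TH18.MS.Base

/-! Chain endomorphisms of induced resolutions over monoid rings. -/

set_option autoImplicit false

namespace Pool.Agent.TH18.MS

open Pool.Agent.TH18.NN

section mu
variable {N G : Type} [Monoid N] [Monoid G] (ι : N →* G) {n : ℕ} (F : NResM N n)

/-- the induced boundary -/
noncomputable def DD (j : ℕ) : (Fin (F.k (j + 1)) → ZM G) →ₗ[ZM G] (Fin (F.k j) → ZM G) :=
  ind (pushM ι) (F.d j)

/-- the coset of `g` -/
def InC (g : G) {a : ℕ} (x : Fin a → ZM G) : Prop :=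
  ∃ v : Fin a → ZM N, x = MonoidAlgebra.of ℤ G g • vm (pushM ι) v

variable (hN : ∀ (g : G) (ν : N), ∃ ν' : N, ι ν * g = g * ι ν')

include hN in
theorem comm_of (g : G) (c : ZM N) : ∃ c' : ZM N, augM N c' = augM N c ∧
    pushM ι c * MonoidAlgebra.of ℤ G g = MonoidAlgebra.of ℤ G g * pushM ι c' := by
  induction c using MonoidAlgebra.induction_on with
  | of h =>
    obtain ⟨h', hh⟩ := hN g h
    refine ⟨MonoidAlgebra.of ℤ N h', ?_, ?_⟩
    · rw [augM_of, augM_of]
    · rw [pushM_of, pushM_of, ← map_mul, ← map_mul, hh]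
  | add a b ha hb =>
    obtain ⟨a', ha, ha'⟩ := ha
    obtain ⟨b', hb, hb'⟩ := hb
    exact ⟨a' + b', by rw [map_add, map_add, ha, hb],
      by rw [map_add, map_add, add_mul, mul_add, ha', hb']⟩
  | smul r a ha =>
    obtain ⟨a', ha, ha'⟩ := ha
    exact ⟨r • a', by rw [map_zsmul, map_zsmul, ha],
      by rw [map_zsmul, map_zsmul, smul_mul_assoc, ha', mul_smul_comm]⟩

/-- a map which sends basis vectors to the coset of `g` -/
def TypeG (g : G) {a b : ℕ} (f : (Fin a → ZM G) →ₗ[ZM G] (Fin b → ZM G)) : Prop :=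
  ∀ i, InC ι g (f (Pi.single i 1))

theorem InC.add {g : G} {a : ℕ} {x y : Fin a → ZM G} (hx : InC ι g x) (hy : InC ι g y) :
    InC ι g (x + y) := by
  obtain ⟨v, rfl⟩ := hx
  obtain ⟨w, rfl⟩ := hy
  exact ⟨v + w, by rw [vm_add, smul_add]⟩

theorem InC.sub {g : G} {a : ℕ} {x y : Fin a → ZM G} (hx : InC ι g x) (hy : InC ι g y) :
    InC ι g (x - y) := by
  obtain ⟨v, rfl⟩ := hx
  obtain ⟨w, rfl⟩ := hy
  exact ⟨v - w, by rw [vm_sub, smul_sub]⟩

theorem InC.zero {g : G} {a : ℕ} : InC ι g (0 : Fin a → ZM G) :=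
  ⟨0, by rw [vm_zero, smul_zero]⟩

theorem InC.sum {g : G} {a : ℕ} {κ : Type} (s : Finset κ) (x : κ → Fin a → ZM G)
    (hx : ∀ i ∈ s, InC ι g (x i)) : InC ι g (∑ i ∈ s, x i) := by
  classical
  induction s using Finset.induction_on with
  | empty => exact InC.zero ι
  | insert i s hi ih =>
    rw [Finset.sum_insert hi]
    exact InC.add ι (hx i (Finset.mem_insert_self _ _)) (ih fun j hj => hx j (Finset.mem_insert_of_mem hj))

include hN in
/-- values of a map of type `g` on vectors over `N` -/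
theorem TypeG.vm {g : G} {a b : ℕ} {f : (Fin a → ZM G) →ₗ[ZM G] (Fin b → ZM G)}
    (hf : TypeG ι g f) (z : Fin a → ZM N) : InC ι g (f (vm (pushM ι) z)) := by
  have h1 : NN.vm (pushM ι) z = ∑ i, pushM ι (z i) • (Pi.single i 1 : Fin a → ZM G) := by
    conv_lhs => rw [pi_sum (NN.vm (pushM ι) z)]
    rfl
  rw [h1, map_sum]
  refine InC.sum ι _ _ fun i _ => ?_
  rw [map_smul]
  obtain ⟨v, hv⟩ := hf i
  obtain ⟨c', _, hc'⟩ := comm_of ι hN g (z i)
  rw [hv, smul_smul, hc', mul_smul]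
  exact ⟨c' • v, by rw [vm_smul]⟩

theorem of_smul_zero [IsCancelMul G] (hι : Function.Injective ι) (g : G) (c : ZM N)
    (h : MonoidAlgebra.of ℤ G g * pushM ι c = 0) : c = 0 := by
  have h1 : Function.Injective (fun ν : N => g * ι ν) := fun a b hab => hι (mul_left_cancel hab)
  have h2 : ∀ c : ZM N, MonoidAlgebra.of ℤ G g * pushM ι c =
      MonoidAlgebra.mapDomain (fun ν : N => g * ι ν) c := by
    intro c
    induction c using MonoidAlgebra.induction_on with
    | of ν =>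
      rw [pushM_of, ← map_mul, MonoidAlgebra.of_apply, MonoidAlgebra.of_apply,
        MonoidAlgebra.mapDomain_single]
    | add a b ha hb => rw [map_add, mul_add, ha, hb, MonoidAlgebra.mapDomain_add]
    | smul r a ha =>
      rw [map_zsmul, mul_smul_comm, ha]
      exact (MonoidAlgebra.mapDomain_smul _ _ _).symm
  rw [h2] at h
  exact MonoidAlgebra.mapDomain_injective h1 (by rw [h]; simp)

theorem of_smul_vm_zero [IsCancelMul G] (hι : Function.Injective ι) {g : G} {a : ℕ}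
    {v : Fin a → ZM N} (h : MonoidAlgebra.of ℤ G g • vm (pushM ι) v = 0) : v = 0 := by
  funext i
  exact of_smul_zero ι hι g (v i) (congrFun h i)

/-- the product of two cosets -/
theorem TypeG.comp {g g' : G} {a b c : ℕ} {f : (Fin a → ZM G) →ₗ[ZM G] (Fin b → ZM G)}
    {f' : (Fin b → ZM G) →ₗ[ZM G] (Fin c → ZM G)}
    (hN : ∀ (g : G) (ν : N), ∃ ν' : N, ι ν * g = g * ι ν')
    (hf : TypeG ι g f) (hf' : TypeG ι g' f') : TypeG ι (g * g') (f' ∘ₗ f) := by
  intro i
  obtain ⟨v, hv⟩ := hf i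
  obtain ⟨w, hw⟩ := hf'.vm ι hN v
  refine ⟨w, ?_⟩
  show f' (f (Pi.single i 1)) = _
  rw [hv, map_smul, hw, smul_smul, map_mul]

theorem InC.lower {g : G} {ν : N} {a : ℕ} {x : Fin a → ZM G} (hx : InC ι (g * ι ν) x) :
    InC ι g x := by
  obtain ⟨v, rfl⟩ := hx
  refine ⟨MonoidAlgebra.of ℤ N ν • v, ?_⟩
  rw [vm_smul, pushM_of, smul_smul, ← map_mul]

/-- chain endomorphisms of type `g` -/
structure CM (g : G) where
  μ : ∀ j, (Fin (F.k j) → ZM G) →ₗ[ZM G] (Fin (F.k j) → ZM G)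
  typ : ∀ j, TypeG ι g (μ j)
  aug : ∀ x, tot (μ 0 x) = tot x
  comm : ∀ j, j + 1 ≤ n → ∀ x, DD ι F j (μ (j + 1) x) = μ j (DD ι F j x)

/-- cycles over `N` -/
def cyc : ∀ j, (Fin (F.k j) → ZM N) → Prop
  | 0, z => tot z = 0
  | j + 1, z => F.d j z = 0

theorem cyc_iff (j : ℕ) (hj : j + 1 ≤ n) (z : Fin (F.k j) → ZM N) :
    cyc F j z ↔ ∃ y, F.d j y = z := by
  cases j with
  | zero => exact F.ex0 (by omega) z
  | succ j => exact F.ex j (by omega) z

/-- the invariant -/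
def Inv (g : G) (j : ℕ) (f : (Fin (F.k j) → ZM G) →ₗ[ZM G] (Fin (F.k j) → ZM G)) : Prop :=
  ∀ z : Fin (F.k j) → ZM N, ∃ w : Fin (F.k j) → ZM N,
    f (vm (pushM ι) z) = MonoidAlgebra.of ℤ G g • vm (pushM ι) w ∧ (cyc F j z → cyc F j w)

theorem Inv.typ {g : G} {j : ℕ} {f : (Fin (F.k j) → ZM G) →ₗ[ZM G] (Fin (F.k j) → ZM G)}
    (hf : Inv ι F g j f) : TypeG ι g f := by
  intro i
  obtain ⟨w, hw, _⟩ := hf (Pi.single i 1)
  rw [vm_single] at hw
  exact ⟨w, hw⟩

/-- a linear map with prescribed values on the basis -/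
noncomputable def lin {R : Type} [Ring R] {a b : ℕ} (v : Fin a → Fin b → R) :
    (Fin a → R) →ₗ[R] (Fin b → R) := Fintype.linearCombination R v

theorem lin_single {R : Type} [Ring R] {a b : ℕ} (v : Fin a → Fin b → R) (i : Fin a) :
    lin v (Pi.single i 1) = v i := by
  unfold lin
  rw [Fintype.linearCombination_apply_single, one_smul]

include hN in
theorem step [IsCancelMul G] (hι : Function.Injective ι) (g : G) (j : ℕ)
    (f : (Fin (F.k j) → ZM G) →ₗ[ZM G] (Fin (F.k j) → ZM G)) (hf : Inv ι F g j f) :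
    ∃ f' : (Fin (F.k (j + 1)) → ZM G) →ₗ[ZM G] (Fin (F.k (j + 1)) → ZM G),
      Inv ι F g (j + 1) f' ∧ (j + 1 ≤ n → ∀ x, DD ι F j (f' x) = f (DD ι F j x)) := by
  by_cases hj : j + 1 ≤ n
  · have h1 : ∀ i : Fin (F.k (j + 1)), ∃ u : Fin (F.k (j + 1)) → ZM N,
        f (DD ι F j (Pi.single i 1)) = MonoidAlgebra.of ℤ G g • vm (pushM ι) (F.d j u) := by
      intro i
      have h2 : DD ι F j (Pi.single i 1) = vm (pushM ι) (F.d j (Pi.single i 1)) := ind_single _ _ _
      rw [h2]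
      obtain ⟨w, hw, hc⟩ := hf (F.d j (Pi.single i 1))
      obtain ⟨u, hu⟩ := (cyc_iff F j hj w).1 (hc ((cyc_iff F j hj _).2 ⟨_, rfl⟩))
      exact ⟨u, by rw [hw, hu]⟩
    choose u hu using h1
    let f' : (Fin (F.k (j + 1)) → ZM G) →ₗ[ZM G] (Fin (F.k (j + 1)) → ZM G) :=
      lin (fun i => MonoidAlgebra.of ℤ G g • vm (pushM ι) (u i))
    have hf' : ∀ i, f' (Pi.single i 1) = MonoidAlgebra.of ℤ G g • vm (pushM ι) (u i) :=
      fun i => lin_single _ i
    have hcomm : ∀ x, DD ι F j (f' x) = f (DD ι F j x) := by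
      have h3 : DD ι F j ∘ₗ f' = f ∘ₗ DD ι F j := by
        apply lin_ext
        intro i
        show DD ι F j (f' (Pi.single i 1)) = f (DD ι F j (Pi.single i 1))
        rw [hf', map_smul, hu]
        congr 1
        exact ind_vm _ _ _
      exact fun x => LinearMap.congr_fun h3 x
    refine ⟨f', ?_, fun _ => hcomm⟩
    intro z
    obtain ⟨w, hw⟩ := TypeG.vm ι hN (g := g) (f := f') (fun i => ⟨u i, hf' i⟩) z
    refine ⟨w, hw, ?_⟩
    intro hz
    have hz' : F.d j z = 0 := hz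
    show F.d j w = 0
    have h4 := hcomm (vm (pushM ι) z)
    rw [hw, map_smul] at h4
    have h5 : DD ι F j (vm (pushM ι) z) = vm (pushM ι) (F.d j z) := ind_vm _ _ _
    have h6 : DD ι F j (vm (pushM ι) w) = vm (pushM ι) (F.d j w) := ind_vm _ _ _
    rw [h5, h6, hz', vm_zero, map_zero] at h4
    exact of_smul_vm_zero ι hι h4
  · refine ⟨0, ?_, fun h => absurd h hj⟩
    intro z
    refine ⟨0, ?_, fun _ => ?_⟩
    · rw [vm_zero, smul_zero]; rfl
    · show F.d j 0 = 0
      exact map_zero _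

/-- right multiplication by a group element -/
noncomputable def rm (g : G) (a : ℕ) : (Fin a → ZM G) →ₗ[ZM G] (Fin a → ZM G) where
  toFun x := fun i => x i * MonoidAlgebra.of ℤ G g
  map_add' x y := by funext i; exact add_mul _ _ _
  map_smul' c x := by funext i; exact mul_assoc _ _ _

theorem rm_apply (g : G) (a : ℕ) (x : Fin a → ZM G) (i : Fin a) :
    rm g a x i = x i * MonoidAlgebra.of ℤ G g := rfl

theorem rm_single (g : G) (a : ℕ) (i : Fin a) :
    rm g a (Pi.single i 1) = MonoidAlgebra.of ℤ G g • Pi.single i 1 := by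
  funext j
  rw [rm_apply]
  show _ = MonoidAlgebra.of ℤ G g * (Pi.single i 1 : Fin a → ZM G) j
  by_cases h : j = i
  · subst h; rw [Pi.single_eq_same, one_mul, mul_one]
  · rw [Pi.single_eq_of_ne h, zero_mul, mul_zero]

theorem rm_typ (g : G) (a : ℕ) : TypeG ι g (rm g a) := by
  intro i
  refine ⟨Pi.single i 1, ?_⟩
  rw [vm_single, rm_single]

theorem tot_rm (g : G) (a : ℕ) (x : Fin a → ZM G) : tot (rm g a x) = tot x := by
  unfold tot
  refine Finset.sum_congr rfl fun i _ => ?_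
  rw [rm_apply, map_mul, augM_of, mul_one]

theorem tot_smul_of (g : G) {a : ℕ} (x : Fin a → ZM G) : tot (MonoidAlgebra.of ℤ G g • x) = tot x := by
  rw [tot_smul, augM_of, one_mul]

include hN in
theorem rm_inv (g : G) : Inv ι F g 0 (rm g (F.k 0)) := by
  intro z
  obtain ⟨w, hw⟩ := (rm_typ ι g (F.k 0)).vm ι hN z
  refine ⟨w, hw, ?_⟩
  intro hz
  have hz' : tot z = 0 := hz
  show tot w = 0
  have h1 := congrArg tot hw
  rw [tot_rm, tot_smul_of, tot_vm, tot_vm, hz'] at h1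
  exact h1.symm

/-- the sequence of maps -/
noncomputable def seq [IsCancelMul G] (hι : Function.Injective ι) (g : G) : ∀ j,
    {f : (Fin (F.k j) → ZM G) →ₗ[ZM G] (Fin (F.k j) → ZM G) // Inv ι F g j f}
  | 0 => ⟨rm g (F.k 0), rm_inv ι F hN g⟩
  | j + 1 => ⟨Classical.choose (step ι F hN hι g j (seq hι g j).1 (seq hι g j).2),
      (Classical.choose_spec (step ι F hN hι g j (seq hι g j).1 (seq hι g j).2)).1⟩

/-- **Existence.** -/
noncomputable def cm [IsCancelMul G] (hι : Function.Injective ι) (g : G) : CM ι F g where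
  μ j := (seq ι F hN hι g j).1
  typ j := (seq ι F hN hι g j).2.typ ι F
  aug x := tot_rm g _ x
  comm j hj x := (Classical.choose_spec (step ι F hN hι g j (seq ι F hN hι g j).1
    (seq ι F hN hι g j).2)).2 hj x

/-- composition -/
noncomputable def CM.comp (hN : ∀ (g : G) (ν : N), ∃ ν' : N, ι ν * g = g * ι ν') {g g' : G}
    (Φ : CM ι F g) (Ψ : CM ι F g') : CM ι F (g * g') where
  μ j := Ψ.μ j ∘ₗ Φ.μ j
  typ j := TypeG.comp ι hN (Φ.typ j) (Ψ.typ j)
  aug x := by
    show tot (Ψ.μ 0 (Φ.μ 0 x)) = tot x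
    rw [Ψ.aug, Φ.aug]
  comm j hj x := by
    show DD ι F j (Ψ.μ (j + 1) (Φ.μ (j + 1) x)) = Ψ.μ j (Φ.μ j (DD ι F j x))
    rw [Ψ.comm j hj, Φ.comm j hj]

/-- the identity -/
noncomputable def CM.one : CM ι F (1 : G) where
  μ j := LinearMap.id
  typ j := by
    intro i
    exact ⟨Pi.single i 1, by rw [vm_single, map_one, one_smul]; rfl⟩
  aug x := rfl
  comm j hj x := rfl

/-- change of representative -/
noncomputable def CM.lower {g : G} {ν : N} (Φ : CM ι F (g * ι ν)) : CM ι F g where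
  μ := Φ.μ
  typ j := fun i => (Φ.typ j i).lower ι
  aug := Φ.aug
  comm := Φ.comm

theorem rm_vm (h : G) (hh : ∀ ν : N, ι ν * h = h * ι ν) {a : ℕ} (v : Fin a → ZM N) :
    rm h a (vm (pushM ι) v) = MonoidAlgebra.of ℤ G h • vm (pushM ι) v := by
  funext i
  rw [rm_apply]
  show pushM ι (v i) * _ = MonoidAlgebra.of ℤ G h * pushM ι (v i)
  generalize v i = c
  induction c using MonoidAlgebra.induction_on with
  | of ν => rw [pushM_of, ← map_mul, ← map_mul, hh]
  | add a b ha hb => rw [map_add, add_mul, mul_add, ha, hb]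
  | smul r a ha => rw [map_zsmul, smul_mul_assoc, mul_smul_comm, ha]

/-- right multiplication by a central element commutes with induced maps -/
theorem rm_ind (h : G) (hh : ∀ ν : N, ι ν * h = h * ι ν) {a b : ℕ}
    (f : (Fin a → ZM N) →ₗ[ZM N] (Fin b → ZM N)) (x : Fin a → ZM G) :
    ind (pushM ι) f (rm h a x) = rm h b (ind (pushM ι) f x) := by
  have h1 : ind (pushM ι) f ∘ₗ rm h a = rm h b ∘ₗ ind (pushM ι) f := by
    apply lin_ext
    intro i
    show ind (pushM ι) f (rm h a (Pi.single i 1)) = rm h b (ind (pushM ι) f (Pi.single i 1))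
    rw [rm_single, map_smul, ind_single, rm_vm ι h hh]
  exact LinearMap.congr_fun h1 x

/-- right multiplication as a chain endomorphism -/
noncomputable def rmCM (h : G) (hh : ∀ ν : N, ι ν * h = h * ι ν) : CM ι F h where
  μ j := rm h (F.k j)
  typ j := rm_typ ι h _
  aug x := tot_rm h _ x
  comm j _ x := rm_ind ι h hh (F.d j) x

/-! ### homotopies -/

/-- cycles over `G` -/
def cycG : ∀ j, (Fin (F.k j) → ZM G) → Prop
  | 0, _ => True
  | j + 1, x => DD ι F j x = 0

theorem DD_cyc (j : ℕ) (hj : j + 1 ≤ n) (x : Fin (F.k (j + 1)) → ZM G) :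
    cycG ι F j (DD ι F j x) := by
  cases j with
  | zero => trivial
  | succ j =>
    show DD ι F j (DD ι F (j + 1) x) = 0
    have h2 : DD ι F j ∘ₗ DD ι F (j + 1) = (0 : _ →ₗ[ZM G] _) := by
      show ind (pushM ι) (F.d j) ∘ₗ ind (pushM ι) (F.d (j + 1)) = 0
      rw [← ind_comp]
      apply lin_ext
      intro i
      rw [ind_single]
      have : (F.d j ∘ₗ F.d (j + 1)) (Pi.single i 1) = 0 := (F.ex j (by omega) _).2 ⟨_, rfl⟩
      rw [this]
      exact vm_zero _
    exact LinearMap.congr_fun h2 x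

include hN in
theorem homotopy [IsCancelMul G] (hι : Function.Injective ι) {g : G} (Φ Ψ : CM ι F g) : ∀ j, j + 1 ≤ n →
    ∃ σ : (Fin (F.k j) → ZM G) →ₗ[ZM G] (Fin (F.k (j + 1)) → ZM G), TypeG ι g σ ∧
      ∀ x, cycG ι F j x → Φ.μ j x - Ψ.μ j x = DD ι F j (σ x) := by
  intro j
  induction j with
  | zero =>
    intro hj
    have h1 : ∀ i : Fin (F.k 0), ∃ u : Fin (F.k 1) → ZM N,
        Φ.μ 0 (Pi.single i 1) - Ψ.μ 0 (Pi.single i 1) =
          MonoidAlgebra.of ℤ G g • vm (pushM ι) (F.d 0 u) := by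
      intro i
      obtain ⟨v, hv⟩ := InC.sub ι (Φ.typ 0 i) (Ψ.typ 0 i)
      have h2 : tot v = 0 := by
        have h3 := congrArg tot hv
        rw [tot_sub, Φ.aug, Ψ.aug, sub_self, tot_smul_of, tot_vm] at h3
        exact h3.symm
      obtain ⟨u, hu⟩ := (F.ex0 (by omega) v).1 h2
      exact ⟨u, by rw [hv, hu]⟩
    choose u hu using h1
    refine ⟨lin (fun i => MonoidAlgebra.of ℤ G g • vm (pushM ι) (u i)), ?_, ?_⟩
    · intro i
      rw [lin_single]
      exact ⟨u i, rfl⟩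
    · intro x _
      have h3 : Φ.μ 0 - Ψ.μ 0 = DD ι F 0 ∘ₗ lin (fun i => MonoidAlgebra.of ℤ G g • vm (pushM ι) (u i)) := by
        apply lin_ext
        intro i
        show Φ.μ 0 (Pi.single i 1) - Ψ.μ 0 (Pi.single i 1) = DD ι F 0 (lin _ (Pi.single i 1))
        rw [hu, lin_single, map_smul]
        congr 1
        exact (ind_vm _ _ _).symm
      exact LinearMap.congr_fun h3 x
  | succ j ih =>
    intro hj
    obtain ⟨σ, hσ, hσ2⟩ := ih (by omega)
    have h1 : ∀ i : Fin (F.k (j + 1)), ∃ u : Fin (F.k (j + 1 + 1)) → ZM N,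
        Φ.μ (j + 1) (Pi.single i 1) - Ψ.μ (j + 1) (Pi.single i 1) - σ (DD ι F j (Pi.single i 1)) =
          MonoidAlgebra.of ℤ G g • vm (pushM ι) (F.d (j + 1) u) := by
      intro i
      have h2 : InC ι g (σ (DD ι F j (Pi.single i 1))) := by
        have h3 : DD ι F j (Pi.single i 1) = vm (pushM ι) (F.d j (Pi.single i 1)) := ind_single _ _ _
        rw [h3]
        exact hσ.vm ι hN _
      obtain ⟨v, hv⟩ := InC.sub ι (InC.sub ι (Φ.typ (j + 1) i) (Ψ.typ (j + 1) i)) h2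
      have h4 : F.d j v = 0 := by
        have h5 := congrArg (DD ι F j) hv
        rw [map_sub, map_sub, Φ.comm j (by omega), Ψ.comm j (by omega),
          hσ2 _ (DD_cyc ι F j (by omega) _), sub_self, map_smul] at h5
        have h6 : DD ι F j (vm (pushM ι) v) = vm (pushM ι) (F.d j v) := ind_vm _ _ _
        rw [h6] at h5
        exact of_smul_vm_zero ι hι h5.symm
      obtain ⟨u, hu⟩ := (F.ex j (by omega) v).1 h4
      exact ⟨u, by rw [hv, hu]⟩
    choose u hu using h1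
    refine ⟨lin (fun i => MonoidAlgebra.of ℤ G g • vm (pushM ι) (u i)), ?_, ?_⟩
    · intro i
      rw [lin_single]
      exact ⟨u i, rfl⟩
    · intro x hx
      have h3 : Φ.μ (j + 1) - Ψ.μ (j + 1) - σ ∘ₗ DD ι F j =
          DD ι F (j + 1) ∘ₗ lin (fun i => MonoidAlgebra.of ℤ G g • vm (pushM ι) (u i)) := by
        apply lin_ext
        intro i
        show Φ.μ (j + 1) (Pi.single i 1) - Ψ.μ (j + 1) (Pi.single i 1) -
          σ (DD ι F j (Pi.single i 1)) = DD ι F (j + 1) (lin _ (Pi.single i 1))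
        rw [hu, lin_single, map_smul]
        congr 1
        exact (ind_vm _ _ _).symm
      have h4 : Φ.μ (j + 1) x - Ψ.μ (j + 1) x - σ (DD ι F j x) = DD ι F (j + 1) (lin _ x) :=
        LinearMap.congr_fun h3 x
      have h5 : DD ι F j x = 0 := hx
      rw [h5, map_zero, sub_zero] at h4
      exact h4

end mu

section top
variable {N G : Type} [Monoid N] [Monoid G] (ι : N →* G) {n : ℕ} (F : NResM N (n + 1))
  (hN : ∀ (g : G) (ν : N), ∃ ν' : N, ι ν * g = g * ι ν')

include hN in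
/-- **The difference of two chain endomorphisms of the same type on the last syzygy.** -/
theorem homotopy_top [IsCancelMul G] (hι : Function.Injective ι) {g : G} (Φ Ψ : CM ι F g) :
    ∃ τ : (Fin (F.k (n + 1)) → ZM G) →ₗ[ZM G] (Fin (F.k (n + 1)) → ZM G),
      (∀ x, DD ι F n (τ x) = 0) ∧
      ∀ x, DD ι F n x = 0 → Φ.μ (n + 1) x - Ψ.μ (n + 1) x = τ x := by
  obtain ⟨σ, _, hσ2⟩ := homotopy ι F hN hι Φ Ψ n le_rfl
  refine ⟨Φ.μ (n + 1) - Ψ.μ (n + 1) - σ ∘ₗ DD ι F n, ?_, ?_⟩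
  · intro x
    show DD ι F n (Φ.μ (n + 1) x - Ψ.μ (n + 1) x - σ (DD ι F n x)) = 0
    rw [map_sub, map_sub, Φ.comm n le_rfl, Ψ.comm n le_rfl, hσ2 _ (DD_cyc ι F n le_rfl _), sub_self]
  · intro x hx
    show _ = Φ.μ (n + 1) x - Ψ.μ (n + 1) x - σ (DD ι F n x)
    rw [hx, map_zero, sub_zero]

end top

end Pool.Agent.TH18.MS
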