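import Pool.Agent.TH18.MS.Two

/-! Type `FP_1` over monoid rings. -/

set_option autoImplicit false

namespace Pool.Agent.TH18.MS

open Pool.Agent.W326.DU (ZG)
open Pool.Agent.TH18.NN
open Pool.Agent.TH18.VS (FPg fg_gens)

section one
variable {G : Type} [Monoid G]

/-- the left ideal generated by `g - 1`, `g ∈ X` -/
noncomputable def LI (X : Set G) : Submodule (ZM G) (ZM G) :=
  Submodule.span (ZM G) ((fun g => MonoidAlgebra.of ℤ G g - 1) '' X)

theorem LI_mono {X Y : Set G} (h : X ⊆ Y) : LI X ≤ LI Y := Submodule.span_mono (Set.image_mono h)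

theorem sub_mem_LI {X : Set G} {g : G} (h : g ∈ X) : MonoidAlgebra.of ℤ G g - 1 ∈ LI X :=
  Submodule.subset_span ⟨g, h, rfl⟩

theorem ker_augML : LinearMap.ker (augML G) = LI (Set.univ : Set G) := by
  apply le_antisymm
  · intro x hx
    have hx' : augM G x = 0 := hx
    have key : ∀ x : ZM G, x - (augM G x : ZM G) ∈ LI (Set.univ : Set G) := by
      intro x
      induction x using MonoidAlgebra.induction_on with
      | of g => rw [augM_of, Int.cast_one]; exact sub_mem_LI (Set.mem_univ g)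
      | add a b ha hb =>
        have h2 := add_mem ha hb
        rw [map_add, Int.cast_add, add_sub_add_comm]
        exact h2
      | smul r a ha =>
        rw [map_zsmul, zsmul_eq_mul, zsmul_eq_mul, Int.cast_mul]
        have h2 := (LI (Set.univ : Set G)).smul_mem (r : ZM G) ha
        rw [smul_eq_mul, mul_sub] at h2
        exact h2
    have h3 := key x
    rw [hx', Int.cast_zero, sub_zero] at h3
    exact h3
  · refine Submodule.span_le.2 ?_
    rintro _ ⟨g, _, rfl⟩
    show augM G (MonoidAlgebra.of ℤ G g - 1) = 0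
    rw [map_sub, augM_of, map_one, sub_self]

theorem LI_finite (X : Set G) (x : ZM G) (hx : x ∈ LI X) :
    ∃ T : Finset G, (T : Set G) ⊆ X ∧ x ∈ LI (T : Set G) := by
  classical
  induction hx using Submodule.span_induction with
  | mem x hx =>
    obtain ⟨g, hg, rfl⟩ := hx
    exact ⟨{g}, by simpa using hg, sub_mem_LI (by simp)⟩
  | zero => exact ⟨∅, by simp, zero_mem _⟩
  | add a b _ _ ha hb =>
    obtain ⟨T, hT, ha⟩ := ha
    obtain ⟨T', hT', hb⟩ := hb
    refine ⟨T ∪ T', by rw [Finset.coe_union]; exact Set.union_subset hT hT', ?_⟩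
    rw [Finset.coe_union]
    exact add_mem (LI_mono Set.subset_union_left ha) (LI_mono Set.subset_union_right hb)
  | smul c a _ ha =>
    obtain ⟨T, hT, ha⟩ := ha
    exact ⟨T, hT, Submodule.smul_mem _ _ ha⟩

/-- **Type `FP_1`.** -/
theorem fp1_iff : FPm (ZM G) 1 (TrM G) ↔ ∃ X : Finset G, ∀ g : G,
    MonoidAlgebra.of ℤ G g - 1 ∈ LI (X : Set G) := by
  classical
  constructor
  · intro h
    have h1 : FPm (ZM G) 0 (LinearMap.ker (augML G)) := by
      refine FPm.ker (augML G) (augML_surj G) ?_ h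
      exact (FPm.free 0 1).equiv (LinearEquiv.funUnique (Fin 1) (ZM G) (ZM G))
    have h2 : (LinearMap.ker (augML G)).FG := Module.Finite.iff_fg.1 h1
    obtain ⟨S, hS⟩ := h2
    have h3 : ∀ x : ZM G, ∃ T : Finset G, x ∈ S → x ∈ LI (T : Set G) := by
      intro x
      by_cases hx : x ∈ S
      · have h4 : x ∈ LinearMap.ker (augML G) := by
          rw [← hS]; exact Submodule.subset_span hx
        rw [ker_augML] at h4
        obtain ⟨T, _, hT⟩ := LI_finite _ _ h4
        exact ⟨T, fun _ => hT⟩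
      · exact ⟨∅, fun h => absurd h hx⟩
    choose T hT using h3
    refine ⟨S.biUnion T, fun g => ?_⟩
    have h5 : MonoidAlgebra.of ℤ G g - 1 ∈ LinearMap.ker (augML G) := by
      rw [ker_augML]; exact sub_mem_LI (Set.mem_univ g)
    rw [← hS] at h5
    refine Submodule.span_le.2 ?_ h5
    intro x hx
    have h6 := hT x hx
    refine LI_mono ?_ h6
    intro t ht
    exact Finset.mem_coe.2 (Finset.mem_biUnion.2 ⟨x, hx, ht⟩)
  · rintro ⟨X, hX⟩
    refine FPm.of_ker (augML G) (augML_surj G) ?_ ?_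
    · exact (FPm.free 1 1).equiv (LinearEquiv.funUnique (Fin 1) (ZM G) (ZM G))
    · show Module.Finite _ _
      rw [Module.Finite.iff_fg]
      refine ⟨X.image (fun g => MonoidAlgebra.of ℤ G g - 1), ?_⟩
      rw [Finset.coe_image]
      show LI (X : Set G) = _
      apply le_antisymm
      · rw [ker_augML]; exact LI_mono (Set.subset_univ _)
      · rw [ker_augML]
        refine Submodule.span_le.2 ?_
        rintro _ ⟨g, _, rfl⟩
        exact hX g

/-- the elements of `1 + J` -/
def AJ (J : Submodule (ZM G) (ZM G)) : Submonoid G where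
  carrier := {g | MonoidAlgebra.of ℤ G g - 1 ∈ J}
  one_mem' := by
    show MonoidAlgebra.of ℤ G 1 - 1 ∈ J
    rw [map_one, sub_self]; exact zero_mem _
  mul_mem' := by
    intro a b ha hb
    show MonoidAlgebra.of ℤ G (a * b) - 1 ∈ J
    have h1 := add_mem (J.smul_mem (MonoidAlgebra.of ℤ G a) hb) ha
    rw [smul_eq_mul, mul_sub, mul_one, ← map_mul, sub_add_sub_cancel] at h1
    exact h1

theorem AJ_cancel (J : Submodule (ZM G) (ZM G)) (a b : G) (hb : b ∈ AJ J) (hab : a * b ∈ AJ J) :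
    a ∈ AJ J := by
  show MonoidAlgebra.of ℤ G a - 1 ∈ J
  have h2 : MonoidAlgebra.of ℤ G (a * b) - 1 ∈ J := hab
  have h3 : MonoidAlgebra.of ℤ G b - 1 ∈ J := hb
  have h1 := sub_mem h2 (J.smul_mem (MonoidAlgebra.of ℤ G a) h3)
  rw [smul_eq_mul, mul_sub, mul_one, ← map_mul] at h1
  rwa [sub_sub_sub_cancel_left] at h1

theorem AJ_conj [IsCancelMul G] (J : Submodule (ZM G) (ZM G)) (g h h' : G) (hg : g ∈ AJ J)
    (hh : h ∈ AJ J) (hc : h' * g = g * h) : h' ∈ AJ J :=
  AJ_cancel J h' g hg (by rw [hc]; exact mul_mem hg hh)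

end one

section two
variable {P : Type} [Group P] (K N : Subgroup P) [hKn : K.Normal] [hNn : N.Normal]
  (hKN : K ⊓ N = ⊥) (χ : P →* Multiplicative ℝ) (hχ : ∃ k ∈ K, 0 < ht χ k)
  {M' : Type} [Monoid M'] [IsCancelMul M'] (p : Mo χ →* M') (hp : Function.Surjective p)
  (j : M' →* P ⧸ N) (hj : Function.Injective j)
  (hjp : ∀ g : Mo χ, j (p g) = (QuotientGroup.mk g.1 : P ⧸ N))

include hKn hNn hKN hχ hp hj hjp in
theorem mfib1 (hM' : FPm (ZM M') 1 (TrM M')) (hLfg : Group.FG (P ⧸ K))
    (hQ' : FPres (P ⧸ (K ⊔ N))) :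
    FPm (ZM (Mo χ)) 1 (TrM (Mo χ)) := by
  classical
  rw [fp1_iff] at hM' ⊢
  obtain ⟨X, hX⟩ := hM'
  obtain ⟨c, hc⟩ := hp.hasRightInverse
  obtain ⟨r, q, hq⟩ := fg_gens (P ⧸ K)
  choose s hs using fun i => pK_surj K χ hχ (q i)
  obtain ⟨H, hH1, hH2⟩ := kgen_two K N hKN χ hχ hQ'
  let Y : Finset (Mo χ) := X.image c ∪ Finset.univ.image s ∪ H
  refine ⟨Y, ?_⟩
  let J := LI (Y : Set (Mo χ))
  have hs' : ∀ i, s i ∈ AJ J := fun i => sub_mem_LI (Finset.mem_coe.2 (Finset.mem_union_left _
    (Finset.mem_union_right _ (Finset.mem_image.2 ⟨i, Finset.mem_univ _, rfl⟩))))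
  have hcomm := NN'_comm K N hKN χ
  have hN : ∀ h ∈ NN' N χ, h ∈ AJ J := by
    refine hH2 (fun h => h ∈ AJ J) ?_ (one_mem _) (fun a _ b _ ha hb => mul_mem ha hb)
      (fun a _ b _ hb hab => AJ_cancel J a b hb hab) ?_
    · intro h hh
      exact sub_mem_LI (Finset.mem_coe.2 (Finset.mem_union_right _ hh))
    · intro g h hh h' hh' hc' hJ
      -- reduce to products of the `s i`
      obtain ⟨l, hl⟩ := hq (pK K χ g)
      obtain ⟨g0, ν1, ν2, h1, h2⟩ := pK_hd K χ g (l.map s).prod (by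
        rw [hl, map_list_prod, List.map_map]
        have : (⇑(pK K χ) ∘ s) = q := funext hs
        rw [this])
      have h3 : h' * g0 = g0 * h := by
        have h4 : (h' * g0) * iK K χ ν1 = (g0 * h) * iK K χ ν1 := by
          rw [mul_assoc, ← h1, hc', h1, mul_assoc, mul_assoc, hcomm h hh]
        exact mul_right_cancel h4
      have h4 : h' * (l.map s).prod = (l.map s).prod * h := by
        rw [h2, ← mul_assoc, h3, mul_assoc, mul_assoc, hcomm h hh]
      refine AJ_conj J (l.map s).prod h h' ?_ hJ h4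
      exact Submonoid.list_prod_mem _ (by
        intro x hx
        obtain ⟨i, _, rfl⟩ := List.mem_map.1 hx
        exact hs' i)
  -- two elements with the same image
  have hsame : ∀ g g' : Mo χ, p g = p g' →
      MonoidAlgebra.of ℤ (Mo χ) g - MonoidAlgebra.of ℤ (Mo χ) g' ∈ J := by
    intro g g' h
    obtain ⟨n, hn, h1 | h1⟩ := two_fib N χ p j hj hjp g g' h
    · have h2 : MonoidAlgebra.of ℤ (Mo χ) n - 1 ∈ J := hN n hn
      have h3 := neg_mem (J.smul_mem (MonoidAlgebra.of ℤ (Mo χ) g) h2)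
      rw [smul_eq_mul, mul_sub, mul_one, ← map_mul, neg_sub, ← h1] at h3
      exact h3
    · have h2 : MonoidAlgebra.of ℤ (Mo χ) n - 1 ∈ J := hN n hn
      have h3 := J.smul_mem (MonoidAlgebra.of ℤ (Mo χ) g') h2
      rw [smul_eq_mul, mul_sub, mul_one, ← map_mul, ← h1] at h3
      exact h3
  -- the section
  let sec : ZM M' →+ ZM (Mo χ) :=
    { toFun := MonoidAlgebra.mapDomain c
      map_zero' := by simp
      map_add' := MonoidAlgebra.mapDomain_add _ }
  have hsec : ∀ x : M', sec (MonoidAlgebra.of ℤ M' x) = MonoidAlgebra.of ℤ (Mo χ) (c x) := by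
    intro x
    show MonoidAlgebra.mapDomain c (MonoidAlgebra.single x 1) = MonoidAlgebra.single _ 1
    rw [MonoidAlgebra.mapDomain_single]
  have hker : ∀ x : ZM (Mo χ), x - sec (pushM p x) ∈ J := by
    intro x
    induction x using MonoidAlgebra.induction_on with
    | of g =>
      rw [pushM_of, hsec]
      exact hsame _ _ (hc (p g)).symm
    | add a b ha hb => rw [map_add, map_add, add_sub_add_comm]; exact add_mem ha hb
    | smul r a ha =>
      rw [map_zsmul, map_zsmul, ← smul_sub]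
      exact zsmul_mem ha r
  have hker2 : ∀ x y : ZM (Mo χ), pushM p x = pushM p y → x - y ∈ J := by
    intro x y h
    have h1 := sub_mem (hker x) (hker y)
    rw [h, sub_sub_sub_cancel_right] at h1
    exact h1
  -- lifting
  have hlift : ∀ y ∈ LI (X : Set M'), ∃ x ∈ J, pushM p x = y := by
    intro y hy
    induction hy using Submodule.span_induction with
    | mem y hy =>
      obtain ⟨x, hx, rfl⟩ := hy
      refine ⟨MonoidAlgebra.of ℤ (Mo χ) (c x) - 1, sub_mem_LI (Finset.mem_coe.2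
        (Finset.mem_union_left _ (Finset.mem_union_left _ (Finset.mem_image.2 ⟨x, hx, rfl⟩)))), ?_⟩
      rw [map_sub, map_one, pushM_of, hc]
    | zero => exact ⟨0, zero_mem _, map_zero _⟩
    | add a b _ _ ha hb =>
      obtain ⟨a', ha', rfl⟩ := ha
      obtain ⟨b', hb', rfl⟩ := hb
      exact ⟨a' + b', add_mem ha' hb', map_add _ _ _⟩
    | smul d a _ ha =>
      obtain ⟨a', ha', rfl⟩ := ha
      obtain ⟨d', rfl⟩ := pushM_surj p hp d
      exact ⟨d' * a', J.smul_mem d' ha', map_mul _ _ _⟩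
  intro g
  obtain ⟨x, hx, hxe⟩ := hlift _ (hX (p g))
  have h1 := hker2 (MonoidAlgebra.of ℤ (Mo χ) g - 1) x (by
    rw [map_sub, map_one, pushM_of, hxe])
  have h2 := add_mem h1 hx
  rwa [sub_add_cancel] at h2

end two

end Pool.Agent.TH18.MS
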