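import Pool.Agent.TH18.MS.Fibre

/-! Assembling the cone over monoid rings. -/

set_option autoImplicit false

namespace Pool.Agent.TH18.MS

open Pool.Agent.W326.DU (ZG)
open Pool.Agent.TH18 (augR augR_of Tr augL augL_surj)
open Pool.Agent.TH18.NN

section pack
variable {N G Q : Type} [Monoid N] [Monoid G] [Group Q] (ι : N →* G) (hι : Function.Injective ι)
  (π : G →* Q) (hπ : Function.Surjective π) (h1 : ∀ ν, π (ι ν) = 1)
  (hd : ∀ g g', π g = π g' → ∃ g0 ν ν', g = g0 * ι ν ∧ g' = g0 * ι ν')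
  {n : ℕ} (F : NResM N (n + 1)) [IsCancelMul G]

/-- the augmentation to `ℤ[Q]` -/
noncomputable def epsQ (a : ℕ) : (Fin a → ZM G) →ₗ[ZM G] Infl (pushM π) (ZG Q) where
  toFun x := (show ZG Q from ∑ j, pushM π (x j))
  map_add' x y := by
    show (∑ j, pushM π (x j + y j) : ZG Q) = (∑ j, pushM π (x j)) + ∑ j, pushM π (y j)
    rw [← Finset.sum_add_distrib]
    exact Finset.sum_congr rfl fun i _ => map_add _ _ _
  map_smul' c x := by
    show (∑ j, pushM π (c * x j) : ZG Q) = pushM π c * ∑ j, pushM π (x j)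
    rw [Finset.mul_sum]
    exact Finset.sum_congr rfl fun i _ => map_mul _ _ _

theorem epsQ_apply (a : ℕ) (x : Fin a → ZM G) :
    epsQ π a x = (show Infl (pushM π) (ZG Q) from (∑ j, pushM π (x j) : ZG Q)) := rfl

include h1 in
theorem push_push_one (c : ZM N) : pushM π (pushM ι c) = (augM N c : ZG Q) := by
  induction c using MonoidAlgebra.induction_on with
  | of ν => rw [pushM_of, pushM_of, augM_of, h1 ν, map_one, Int.cast_one]
  | add a b ha hb => rw [map_add, map_add, map_add, ha, hb, Int.cast_add]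
  | smul r a ha =>
    rw [map_zsmul, map_zsmul, map_zsmul, ha]
    simp

include h1 in
theorem epsQ_vm {a : ℕ} (g : G) (v : Fin a → ZM N) :
    epsQ π a (MonoidAlgebra.of ℤ G g • vm (pushM ι) v) =
      (show Infl (pushM π) (ZG Q) from (MonoidAlgebra.of ℤ Q (π g) * (tot v : ZG Q) : ZG Q)) := by
  rw [map_smul]
  show pushM π (MonoidAlgebra.of ℤ G g) * (∑ j, pushM π (pushM ι (v j)) : ZG Q) = _
  rw [pushM_of]
  simp only [push_push_one ι π h1]
  rw [← Int.cast_sum]
  rfl

theorem tot_eq_coeff {a : ℕ} (g : G) (v : Fin a → ZM N) (h1 : ∀ ν, π (ι ν) = 1) :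
    (∑ j, pushM π ((MonoidAlgebra.of ℤ G g • vm (pushM ι) v) j) : ZG Q) =
      MonoidAlgebra.of ℤ Q (π g) * (tot v : ZG Q) :=
  epsQ_vm ι π h1 g v

include h1 hd hι hπ in
theorem epsQ_exact (x : Fin (F.k 0) → ZM G) :
    epsQ π _ x = 0 ↔ ∃ y, DD ι F 0 y = x := by
  classical
  constructor
  · intro hx
    obtain ⟨Q0, hQ⟩ := compv_sum π x
    -- the augmentation of a component
    have hcomp : ∀ (q : Q) (a : ℕ) (y : Fin a → ZM G), (∑ j, pushM π (compv π q a y j) : ZG Q) =
        MonoidAlgebra.single q ((∑ j, pushM π (y j) : ZG Q).coeff q) := by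
      intro q a y
      have h3 : ∀ c : ZM G, pushM π (MS.comp π q c) =
          (MonoidAlgebra.single q ((pushM π c).coeff q) : ZG Q) := by
        intro c
        induction c using MonoidAlgebra.induction_on with
        | of g =>
          by_cases h : π g = q
          · rw [comp_of_pos _ q g h, pushM_of, h, MonoidAlgebra.of_apply,
              MonoidAlgebra.coeff_single, Finsupp.single_eq_same]
          · rw [comp_of_neg _ q g h, map_zero, pushM_of, MonoidAlgebra.of_apply,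
              MonoidAlgebra.coeff_single, Finsupp.single_eq_of_ne (Ne.symm h),
              MonoidAlgebra.single_zero]
        | add a b ha hb =>
          rw [map_add, map_add, ha, hb, map_add, ← MonoidAlgebra.single_add]
          rfl
        | smul r a ha =>
          rw [map_zsmul, map_zsmul, ha, map_zsmul, MonoidAlgebra.smul_single]
          rfl
      simp only [compv_apply, h3]
      rw [MonoidAlgebra.coeff_sum, Finsupp.finsetSum_apply]
      induction (Finset.univ : Finset (Fin a)) using Finset.induction_on with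
      | empty => rw [Finset.sum_empty, Finset.sum_empty, MonoidAlgebra.single_zero]
      | insert i s hi ih => rw [Finset.sum_insert hi, Finset.sum_insert hi, ih,
          MonoidAlgebra.single_add]
    have h2 : (∑ j, pushM π (x j) : ZG Q) = 0 := hx
    rw [hQ]
    have h4 : ∀ q ∈ Q0, compv π q _ x ∈ LinearMap.range (DD ι F 0) := by
      intro q _
      obtain ⟨g, hg, z, hz⟩ := InF.compv ι π h1 hd hπ q x
      have h5 := hcomp q _ x
      rw [h2] at h5
      have h6 : (∑ j, pushM π (compv π q (F.k 0) x j) : ZG Q) = 0 := by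
        rw [h5]
        exact MonoidAlgebra.single_zero _
      rw [hz, tot_eq_coeff ι π g z h1] at h6
      have h7 : tot z = 0 := by
        have h8 := congrArg (fun w : ZG Q => (MonoidAlgebra.of ℤ Q (π g)⁻¹ * w)) h6
        simp only [mul_zero] at h8
        rw [← mul_assoc, ← map_mul, inv_mul_cancel, map_one, one_mul] at h8
        have h9 := congrArg (augR Q) h8
        rw [map_intCast, map_zero] at h9
        exact_mod_cast h9
      obtain ⟨y, rfl⟩ := (F.ex0 (Nat.succ_pos _) z).1 h7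
      rw [hz]
      exact ⟨MonoidAlgebra.of ℤ G g • vm (pushM ι) y, by rw [map_smul]; congr 1; exact ind_vm _ _ _⟩
    exact Submodule.sum_mem _ h4
  · rintro ⟨y, rfl⟩
    have h2 : epsQ π (F.k 0) ∘ₗ DD ι F 0 = 0 := by
      apply lin_ext
      intro i
      show epsQ π (F.k 0) (DD ι F 0 (Pi.single i 1)) = 0
      have h3 : DD ι F 0 (Pi.single i 1) = vm (pushM ι) (F.d 0 (Pi.single i 1)) := ind_single _ _ _
      have h4 : tot (F.d 0 (Pi.single i 1)) = 0 := (F.ex0 (Nat.succ_pos _) _).2 ⟨_, rfl⟩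
      have h5 := epsQ_vm ι π h1 1 (F.d 0 (Pi.single i 1))
      rw [map_one, one_smul] at h5
      rw [h3, h5, h4, Int.cast_zero, mul_zero]
      rfl
    exact LinearMap.congr_fun h2 y

include hπ in
theorem epsQ_surj : Function.Surjective (epsQ π (F.k 0)) := by
  intro y
  have hk : 0 < F.k 0 := by
    rcases Nat.eq_zero_or_pos (F.k 0) with h | h
    · obtain ⟨x, hx⟩ := F.one
      exfalso
      have : IsEmpty (Fin (F.k 0)) := by rw [h]; infer_instance
      rw [tot, Finset.univ_eq_empty, Finset.sum_empty] at hx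
      exact absurd hx (by norm_num)
    · exact h
  obtain ⟨c, hc⟩ := pushM_surj π hπ (show ZG Q from y)
  refine ⟨Pi.single ⟨0, hk⟩ c, ?_⟩
  show (∑ j, pushM π ((Pi.single ⟨0, hk⟩ c : Fin (F.k 0) → ZM G) j) : ZG Q) = y
  rw [Finset.sum_eq_single ⟨0, hk⟩]
  · rw [Pi.single_eq_same]; exact hc
  · intro j _ hj
    rw [Pi.single_eq_of_ne hj, map_zero]
  · intro h; exact absurd (Finset.mem_univ _) h

/-- the modules of the complex -/
noncomputable def XX : ℕ → ModuleCat.{0} (ZM G)
  | 0 => ModuleCat.of (ZM G) (Infl (pushM π) (ZG Q))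
  | j + 1 => ModuleCat.of (ZM G) (Fin (F.k j) → ZM G)

/-- the differentials -/
noncomputable def xd : ∀ j, XX π F (j + 1) →ₗ[ZM G] XX π F j
  | 0 => epsQ π (F.k 0)
  | j + 1 => DD ι F j

/-- right multiplication on `ℤ[Q]` -/
noncomputable def rq (q : Q) : Infl (pushM π) (ZG Q) →ₗ[ZM G] Infl (pushM π) (ZG Q) where
  toFun x := ((show ZG Q from x) * MonoidAlgebra.of ℤ Q q : ZG Q)
  map_add' x y := add_mul (show ZG Q from x) y _
  map_smul' c x := mul_assoc (pushM π c) (show ZG Q from x) _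

theorem rq_apply (q : Q) (x : Infl (pushM π) (ZG Q)) :
    rq π q x = (show Infl (pushM π) (ZG Q) from
      ((show ZG Q from x) * MonoidAlgebra.of ℤ Q q : ZG Q)) := rfl

variable {r : ℕ} (s : Fin r → G) (Φ : ∀ i, CM ι F (s i))

/-- the endomorphisms -/
noncomputable def mm (i : Fin r) : ∀ j, XX π F j →ₗ[ZM G] XX π F j
  | 0 => rq π (π (s i))
  | j + 1 => (Φ i).μ j

include hπ in
theorem pk_h0 : Function.Surjective (xd ι π F 0) := epsQ_surj π hπ F

include hι hπ h1 hd in
theorem pk_hex : ∀ j, j + 1 ≤ n + 1 → ∀ x, xd ι π F j x = 0 ↔ ∃ y, xd ι π F (j + 1) y = x := by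
  intro j hj
  cases j with
  | zero => exact epsQ_exact ι hι π hπ h1 hd F
  | succ j => exact ind_exact ι π h1 hd hι hπ (F.d j) (F.d (j + 1)) (F.ex j (by omega))

include h1 in
theorem eps_cm {g : G} (Ψ : CM ι F g) (x : Fin (F.k 0) → ZM G) :
    epsQ π (F.k 0) (Ψ.μ 0 x) = rq π (π g) (epsQ π (F.k 0) x) := by
  have h2 : epsQ π (F.k 0) ∘ₗ Ψ.μ 0 = rq π (π g) ∘ₗ epsQ π (F.k 0) := by
    apply lin_ext
    intro i
    show epsQ π (F.k 0) (Ψ.μ 0 (Pi.single i 1)) = rq π (π g) (epsQ π (F.k 0) (Pi.single i 1))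
    obtain ⟨v, hv⟩ := Ψ.typ 0 i
    have h3 : tot v = 1 := by
      have := Ψ.aug (Pi.single i 1)
      rwa [hv, tot_smul_of, tot_vm, tot_single] at this
    have h4 := epsQ_vm ι π h1 1 (Pi.single i 1 : Fin (F.k 0) → ZM N)
    rw [vm_single, map_one, one_smul, tot_single, map_one, map_one, one_mul, Int.cast_one] at h4
    rw [hv, epsQ_vm ι π h1, h3, h4, Int.cast_one, mul_one]
    show MonoidAlgebra.of ℤ Q (π g) = 1 * MonoidAlgebra.of ℤ Q (π g)
    rw [one_mul]
  exact LinearMap.congr_fun h2 x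

include h1 in
theorem pk_hm : ∀ i j, j ≤ n + 1 → ∀ x,
    xd ι π F j (mm ι π F s Φ i (j + 1) x) = mm ι π F s Φ i j (xd ι π F j x) := by
  intro i j hj x
  cases j with
  | zero => exact eps_cm ι π h1 F (Φ i) x
  | succ j => exact (Φ i).comm j hj x

theorem pk_hfin : ∀ j, j ≤ n + 1 → ∀ l, FPm (ZM G) l (XX π F (j + 1)) :=
  fun j _ l => FPm.free l (F.k j)

include hι hπ h1 hd F in
/-- `ℤ[Q]` is of type `FP_n` over `ℤ[G]` -/
theorem zq_fp : FPm (ZM G) (n + 1) (Infl (pushM π) (ZG Q)) :=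
  fpm_of_complex (XX π F) (xd ι π F) (n + 1) (pk_h0 ι π hπ F) (pk_hex ι hι π hπ h1 hd F) (pk_hfin π F)

/-! ### the augmentation of `Q` -/

omit [IsCancelMul G] in
theorem augR_pushM (c : ZM G) : augR Q (pushM π c) = augM G c := by
  induction c using MonoidAlgebra.induction_on with
  | of h => rw [pushM_of, augR_of, augM_of]
  | add a b ha hb => rw [map_add, map_add, map_add, ha, hb]
  | smul r a ha => rw [map_zsmul, map_zsmul, map_zsmul, ha]


/-- the trivial module as a quotient of `ℤ[Q]` -/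
noncomputable def ccQ : Infl (pushM π) (ZG Q) →ₗ[ZM G] TrM G where
  toFun x := (show ℤ from augR Q (show ZG Q from x))
  map_add' x y := map_add (augR Q) (show ZG Q from x) y
  map_smul' c x := by
    show augR Q (pushM π c * (show ZG Q from x)) = augM G c * augR Q (show ZG Q from x)
    rw [map_mul, augR_pushM]

theorem ccQ_surj : Function.Surjective (ccQ π) := augL_surj Q

theorem ff_zero (y : Fin r → ZG Q) :
    ff (XX π F) (mm ι π F s Φ) 0 (show Fin r → XX π F 0 from y) =
      (show Infl (pushM π) (ZG Q) from fq (fun i => π (s i)) y) := by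
  rw [ff_apply]
  show _ = (fq (fun i => π (s i)) y : ZG Q)
  rw [fq_apply]
  rfl

theorem pk_hck (hq : Subgroup.closure (Set.range (fun i => π (s i))) = ⊤) (x : XX π F 0) :
    ccQ π x = 0 ↔ ∃ y, ff (XX π F) (mm ι π F s Φ) 0 y = x := by
  have h1 := fq_range _ hq
  constructor
  · intro hx
    have h2 : (show ZG Q from x) ∈ LinearMap.ker (augL Q) := hx
    rw [← h1] at h2
    obtain ⟨y, hy⟩ := h2
    exact ⟨y, by rw [ff_zero]; exact hy⟩
  · rintro ⟨y, rfl⟩
    have h3 := ff_zero ι π F s Φ y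
    have h2 : fq (fun i => π (s i)) y ∈ LinearMap.ker (augL Q) := by rw [← h1]; exact ⟨y, rfl⟩
    rw [h3]
    exact h2

include hι hπ h1 hd in
/-- the first homology of the cone -/
theorem pk_A {l : ℕ} (hl : l ≤ n + 1) (h : FPm (ZG Q) l (LinearMap.ker (fq (fun i => π (s i))))) :
    FPm (ZM G) l (LinearMap.ker (ff (XX π F) (mm ι π F s Φ) 0)) := by
  have h1 := infl_fp (pushM π) ((zq_fp ι hι π hπ h1 hd F).mono hl) h
  let e : Infl (pushM π) (LinearMap.ker (fq (fun i => π (s i)))) ≃ₗ[ZM G]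
      LinearMap.ker (ff (XX π F) (mm ι π F s Φ) 0) :=
    { toFun := fun x => ⟨x.1, by
        show ff (XX π F) (mm ι π F s Φ) 0 _ = 0
        have h3 := ff_zero ι π F s Φ x.1
        rw [show fq (fun i => π (s i)) x.1 = 0 from x.2] at h3
        exact h3⟩
      invFun := fun x => ⟨x.1, by
        show fq (fun i => π (s i)) _ = 0
        have h3 := ff_zero ι π F s Φ x.1
        rw [show ff (XX π F) (mm ι π F s Φ) 0 x.1 = 0 from x.2] at h3
        exact h3.symm⟩
      left_inv := fun x => rfl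
      right_inv := fun x => rfl
      map_add' := fun x y => rfl
      map_smul' := fun c x => rfl }
  exact h1.equiv e

include hι hπ h1 hd in
/-- **`Γ` of type `FP_{n+2}` and `Q` of type `FP_{n+3}` make `W` finitely generated.** -/
theorem pk_wfg (hq : Subgroup.closure (Set.range (fun i => π (s i))) = ⊤)
    (hG : FPm (ZM G) (n + 2) (TrM G)) (hQ : FPm (ZG Q) (n + 3) (Tr Q)) :
    WFG (XX π F) (xd ι π F) (mm ι π F s Φ) (n + 1) :=
  wfg_main (XX π F) (xd ι π F) (mm ι π F s Φ) (n + 1) (pk_h0 ι π hπ F) (pk_hex ι hι π hπ h1 hd F)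
    (pk_hm ι π h1 F s Φ) (pk_hfin π F) (ccQ π) (ccQ_surj π) (pk_hck ι π F s Φ hq) hG
    (pk_A ι hι π hπ h1 hd F s Φ le_rfl (q_fp _ hq hQ))

include hι hπ h1 hd in
/-- **Conversely.** -/
theorem wfg_pk (hq : Subgroup.closure (Set.range (fun i => π (s i))) = ⊤)
    (hW : WFG (XX π F) (xd ι π F) (mm ι π F s Φ) (n + 1)) (hQ : FPm (ZG Q) (n + 2) (Tr Q)) :
    FPm (ZM G) (n + 2) (TrM G) :=
  main_wfg (XX π F) (xd ι π F) (mm ι π F s Φ) n (pk_h0 ι π hπ F) (pk_hex ι hι π hπ h1 hd F)
    (pk_hm ι π h1 F s Φ) (pk_hfin π F) (ccQ π) (ccQ_surj π) (pk_hck ι π F s Φ hq) hW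
    (pk_A ι hι π hπ h1 hd F s Φ (Nat.le_succ n) (q_fp _ hq hQ))

end pack

end Pool.Agent.TH18.MS
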