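import Pool.Agent.TH18.MS.Conv

/-! Monoids `{χ ≥ 0}` in a group with two normal subgroups that intersect trivially. -/

set_option autoImplicit false

namespace Pool.Agent.TH18.MS

open Pool.Agent.W326.DU (ZG)
open Pool.Agent.TH18 (augR augR_of Tr augL augL_surj)
open Pool.Agent.TH18.NN
open Pool.Agent.TH18.VS (FPg fg_gens ker_fg')

section two
variable {P : Type} [Group P] (K N : Subgroup P) [hKn : K.Normal] [hNn : N.Normal]
  (hKN : K ⊓ N = ⊥) (χ : P →* Multiplicative ℝ) (hχ : ∃ k ∈ K, 0 < ht χ k)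

include hKn hNn hKN in
theorem comm_two : ∀ k ∈ K, ∀ n ∈ N, k * n = n * k := by
  intro k hk n hn
  have h1 : k * n * k⁻¹ * n⁻¹ ∈ K ⊓ N := by
    constructor
    · have := hKn.conj_mem _ (K.inv_mem hk) n
      have e : k * n * k⁻¹ * n⁻¹ = k * (n * k⁻¹ * n⁻¹) := by group
      rw [e]; exact K.mul_mem hk this
    · have := hNn.conj_mem _ hn k
      exact N.mul_mem this (N.inv_mem hn)
  rw [hKN, Subgroup.mem_bot] at h1
  have h2 : k * n * k⁻¹ = n := by rw [← mul_inv_eq_one]; exact h1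
  calc k * n = k * n * k⁻¹ * k := by group
    _ = n * k := by rw [h2]

/-- the inclusion `K_χ → P_χ` -/
def iK : Mo (χ.comp K.subtype) →* Mo χ where
  toFun k := ⟨k.1.1, k.2⟩
  map_one' := rfl
  map_mul' _ _ := rfl

theorem iK_inj : Function.Injective (iK K χ) := by
  intro a b h
  apply Subtype.ext
  apply Subtype.ext
  exact congrArg (fun z : Mo χ => z.1) h

/-- the projection `P_χ → P/K` -/
def pK : Mo χ →* P ⧸ K := (QuotientGroup.mk' K).comp (Mo χ).subtype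

include hχ in
/-- every coset of `K` meets the monoid -/
theorem exists_shift (g : P) (c : ℝ) : ∃ k ∈ K, c ≤ ht χ (g * k) ∧ 0 ≤ ht χ k := by
  obtain ⟨k, hk, hk0⟩ := hχ
  obtain ⟨n, hn⟩ := exists_pow χ hk0 (max 0 (c - ht χ g))
  refine ⟨k ^ n, K.pow_mem hk n, ?_, ?_⟩
  · rw [ht_mul]
    have := (le_max_right 0 (c - ht χ g)).trans hn
    linarith
  · exact (le_max_left _ _).trans hn

include hχ in
theorem pK_surj : Function.Surjective (pK K χ) := by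
  intro x
  obtain ⟨g, rfl⟩ := QuotientGroup.mk'_surjective K x
  obtain ⟨k, hk, hk1, _⟩ := exists_shift K χ hχ g 0
  refine ⟨⟨g * k, hk1⟩, ?_⟩
  show (QuotientGroup.mk (g * k) : P ⧸ K) = QuotientGroup.mk g
  rw [QuotientGroup.eq]
  have : (g * k)⁻¹ * g = k⁻¹ := by group
  rw [this]; exact K.inv_mem hk

theorem pK_iK (ν : Mo (χ.comp K.subtype)) : pK K χ (iK K χ ν) = 1 := by
  show (QuotientGroup.mk ν.1.1 : P ⧸ K) = 1
  rw [QuotientGroup.eq_one_iff]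
  exact ν.1.2

/-- two elements that differ by an element of `K` -/
theorem hd_two (g g' : Mo χ) (k : P) (hk : k ∈ K) (h : g'.1 = g.1 * k) :
    (∃ ν, g' = g * iK K χ ν) ∨ ∃ ν, g = g' * iK K χ ν := by
  by_cases h0 : 0 ≤ ht χ k
  · left
    exact ⟨⟨⟨k, hk⟩, h0⟩, Subtype.ext h⟩
  · right
    refine ⟨⟨⟨k⁻¹, K.inv_mem hk⟩, ?_⟩, Subtype.ext ?_⟩
    · show 0 ≤ ht χ k⁻¹
      rw [ht_inv]; linarith
    · show g.1 = g'.1 * k⁻¹
      rw [h, mul_inv_cancel_right]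

theorem pK_hd (g g' : Mo χ) (h : pK K χ g = pK K χ g') :
    ∃ g0 ν ν', g = g0 * iK K χ ν ∧ g' = g0 * iK K χ ν' := by
  have h1 : g.1⁻¹ * g'.1 ∈ K := QuotientGroup.eq.1 h
  rcases hd_two K χ g g' _ h1 (by rw [mul_inv_cancel_left]) with ⟨ν, h2⟩ | ⟨ν, h2⟩
  · exact ⟨g, 1, ν, by rw [map_one, mul_one], h2⟩
  · exact ⟨g', ν, 1, h2, by rw [map_one, mul_one]⟩

theorem iK_normal (g : Mo χ) (ν : Mo (χ.comp K.subtype)) :
    ∃ ν' : Mo (χ.comp K.subtype), iK K χ ν * g = g * iK K χ ν' := by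
  refine ⟨⟨⟨g.1⁻¹ * ν.1.1 * g.1, ?_⟩, ?_⟩, Subtype.ext ?_⟩
  · have := hKn.conj_mem _ ν.1.2 g.1⁻¹
    rwa [inv_inv] at this
  · show 0 ≤ ht χ (g.1⁻¹ * ν.1.1 * g.1)
    rw [ht_mul, ht_mul, ht_inv]
    have : 0 ≤ ht χ ν.1.1 := ν.2
    linarith
  · show ν.1.1 * g.1 = g.1 * (g.1⁻¹ * ν.1.1 * g.1)
    group

/-- the elements of `N` in the monoid -/
def NN' : Set (Mo χ) := {h | h.1 ∈ N}

include hKN in
theorem NN'_comm : ∀ h ∈ NN' N χ, ∀ ν, iK K χ ν * h = h * iK K χ ν := by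
  intro h hh ν
  exact Subtype.ext (comm_two K N hKN ν.1.1 ν.1.2 h.1 hh)

theorem NN'_conj : ∀ g : Mo χ, ∀ h ∈ NN' N χ, ∃ h' ∈ NN' N χ, h' * g = g * h := by
  intro g h hh
  refine ⟨⟨g.1 * h.1 * g.1⁻¹, ?_⟩, ?_, Subtype.ext ?_⟩
  · show 0 ≤ ht χ (g.1 * h.1 * g.1⁻¹)
    rw [ht_mul, ht_mul, ht_inv]
    have : 0 ≤ ht χ h.1 := h.2
    linarith
  · exact hNn.conj_mem _ hh g.1
  · show g.1 * h.1 * g.1⁻¹ * g.1 = g.1 * h.1
    group

include hKn hNn hKN in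
/-- `N` is the normal closure of a finite set -/
theorem N_closure [Group.FG (P ⧸ K)] (hQ : FPres (P ⧸ (K ⊔ N))) :
    ∃ A : Finset P, (∀ a ∈ A, a ∈ N) ∧ N ≤ Subgroup.normalClosure (A : Set P) := by
  classical
  let π : P ⧸ K →* P ⧸ (K ⊔ N) := QuotientGroup.map K (K ⊔ N) (MonoidHom.id P) (by
    intro x hx; exact Subgroup.mem_sup_left hx)
  have hπ : Function.Surjective π := by
    intro x
    obtain ⟨x, rfl⟩ := QuotientGroup.mk'_surjective _ x
    exact ⟨QuotientGroup.mk' K x, rfl⟩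
  obtain ⟨A, hA⟩ := ker_fg' hQ π hπ
  have hπN : π.ker = N.map (QuotientGroup.mk' K) := by
    ext x
    obtain ⟨x, rfl⟩ := QuotientGroup.mk'_surjective _ x
    rw [MonoidHom.mem_ker, Subgroup.mem_map]
    constructor
    · intro hx
      have h1 : x ∈ K ⊔ N := (QuotientGroup.eq_one_iff x).1 hx
      have h1' : x ∈ (↑(K ⊔ N) : Set P) := h1
      rw [Subgroup.normal_mul] at h1'
      obtain ⟨k, hk, n, hn, rfl⟩ := h1'
      refine ⟨n, hn, ?_⟩
      show _ = QuotientGroup.mk' K (k * n)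
      rw [map_mul]
      have : QuotientGroup.mk' K k = 1 := (QuotientGroup.eq_one_iff k).2 hk
      rw [this, one_mul]
    · rintro ⟨n, hn, hnx⟩
      rw [← hnx]
      exact (QuotientGroup.eq_one_iff n).2 (Subgroup.mem_sup_right hn)
  have hA2 : ∀ a : P ⧸ K, ∃ n : P, n ∈ N ∧ (a ∈ A → QuotientGroup.mk' K n = a) := by
    intro a
    by_cases ha : a ∈ A
    · have : a ∈ π.ker := by rw [hA]; exact Subgroup.subset_normalClosure ha
      rw [hπN] at this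
      obtain ⟨n, hn, h⟩ := this
      exact ⟨n, hn, fun _ => h⟩
    · exact ⟨1, N.one_mem, fun h => absurd h ha⟩
  choose c hc using hA2
  refine ⟨A.image c, ?_, ?_⟩
  · intro a ha
    obtain ⟨b, _, rfl⟩ := Finset.mem_image.1 ha
    exact (hc b).1
  · intro n hn
    let C := Subgroup.normalClosure (↑(A.image c) : Set P)
    have hCN : C ≤ N := by
      apply Subgroup.normalClosure_le_normal
      intro a ha
      obtain ⟨b, _, rfl⟩ := Finset.mem_image.1 (Finset.mem_coe.1 ha)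
      exact (hc b).1
    have h5 : QuotientGroup.mk' K n ∈ Subgroup.normalClosure (↑A : Set (P ⧸ K)) := by
      rw [← hA, hπN]; exact ⟨n, hn, rfl⟩
    have h6 : Subgroup.normalClosure (↑A : Set (P ⧸ K)) ≤ C.map (QuotientGroup.mk' K) := by
      have : (C.map (QuotientGroup.mk' K)).Normal :=
        (Subgroup.normalClosure_normal).map _ (QuotientGroup.mk'_surjective K)
      apply Subgroup.normalClosure_le_normal
      intro a ha
      exact ⟨c a, Subgroup.subset_normalClosure (Finset.mem_coe.2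
        (Finset.mem_image.2 ⟨a, ha, rfl⟩)), (hc a).2 ha⟩
    obtain ⟨m, hm, hmn⟩ := h6 h5
    have h7 : m⁻¹ * n ∈ K ⊓ N := ⟨QuotientGroup.eq.1 hmn, N.mul_mem (N.inv_mem (hCN hm)) hn⟩
    rw [hKN, Subgroup.mem_bot] at h7
    have : n = m := (eq_of_inv_mul_eq_one h7).symm
    rw [this]; exact hm

include hKn hNn hKN hχ in
/-- weak finite generation of `N ∩ {χ ≥ 0}` -/
theorem kgen_two [Group.FG (P ⧸ K)] (hQ : FPres (P ⧸ (K ⊔ N))) :
    ∃ H : Finset (Mo χ), KGen (NN' N χ) H := by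
  classical
  obtain ⟨A, hA1, hA2⟩ := N_closure K N hKN hQ
  have h1 : ∀ a : P, ∃ h : Mo χ, (a ∈ N → h ∈ NN' N χ) ∧ (h.1 = a ∨ h.1 = a⁻¹) := by
    intro a
    by_cases h : 0 ≤ ht χ a
    · exact ⟨⟨a, h⟩, fun ha => ha, Or.inl rfl⟩
    · refine ⟨⟨a⁻¹, ?_⟩, fun ha => N.inv_mem ha, Or.inr rfl⟩
      show 0 ≤ ht χ a⁻¹
      rw [ht_inv]; linarith
  choose c hc1 hc2 using h1
  refine ⟨A.image c, ?_, ?_⟩
  · intro h hh
    obtain ⟨a, ha, rfl⟩ := Finset.mem_image.1 hh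
    exact hc1 a (hA1 a ha)
  · intro R hR h1 hmul hcan hconj h hh
    -- conjugation by elements of the monoid
    have hcj : ∀ g : Mo χ, ∀ h ∈ NN' N χ, R h → ∃ h' ∈ NN' N χ, R h' ∧ h'.1 = g.1 * h.1 * g.1⁻¹ := by
      intro g h hh hRh
      obtain ⟨h', hh', hc⟩ := NN'_conj N χ g h hh
      refine ⟨h', hh', hconj g h hh h' hh' hc hRh, ?_⟩
      have h2 : h'.1 * g.1 = g.1 * h.1 := congrArg Subtype.val hc
      rw [← h2, mul_inv_cancel_right]
    -- conjugation by all elements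
    have hcj2 : ∀ g : P, ∀ h ∈ NN' N χ, R h → ∃ h' ∈ NN' N χ, R h' ∧ h'.1 = g * h.1 * g⁻¹ := by
      intro g h hh hRh
      obtain ⟨k, hk, hk1, _⟩ := exists_shift K χ hχ g 0
      obtain ⟨h', hh', hRh', he⟩ := hcj ⟨g * k, hk1⟩ h hh hRh
      refine ⟨h', hh', hRh', ?_⟩
      rw [he]
      show g * k * h.1 * (g * k)⁻¹ = g * h.1 * g⁻¹
      have h3 := comm_two K N hKN k hk h.1 hh
      calc g * k * h.1 * (g * k)⁻¹ = g * (k * h.1) * k⁻¹ * g⁻¹ := by group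
        _ = g * h.1 * g⁻¹ := by rw [h3]; group
    let B : Subgroup P :=
      { carrier := {x | ∃ a ∈ NN' N χ, ∃ b ∈ NN' N χ, R a ∧ R b ∧ x = a.1 * b.1⁻¹}
        one_mem' := ⟨1, N.one_mem, 1, N.one_mem, h1, h1, by simp⟩
        mul_mem' := by
          rintro x y ⟨a, ha, b, hb, hRa, hRb, rfl⟩ ⟨a', ha', b', hb', hRa', hRb', rfl⟩
          obtain ⟨c, hc, hRc, hce⟩ := hcj2 b.1⁻¹ a' ha' hRa'
          refine ⟨a * c, N.mul_mem ha hc, b' * b, N.mul_mem hb' hb, hmul a ha c hc hRa hRc,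
            hmul b' hb' b hb hRb' hRb, ?_⟩
          show a.1 * b.1⁻¹ * (a'.1 * b'.1⁻¹) = a.1 * c.1 * (b'.1 * b.1)⁻¹
          rw [hce]; group
        inv_mem' := by
          rintro x ⟨a, ha, b, hb, hRa, hRb, rfl⟩
          exact ⟨b, hb, a, ha, hRb, hRa, by group⟩ }
    have hBn : B.Normal := by
      refine ⟨?_⟩
      rintro x ⟨a, ha, b, hb, hRa, hRb, rfl⟩ g
      obtain ⟨c, hc, hRc, hce⟩ := hcj2 g a ha hRa
      obtain ⟨d, hd, hRd, hde⟩ := hcj2 g b hb hRb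
      refine ⟨c, hc, d, hd, hRc, hRd, ?_⟩
      rw [hce, hde]; group
    have hAB : (A : Set P) ⊆ B := by
      intro a ha
      have h3 : R (c a) := hR _ (Finset.mem_image.2 ⟨a, ha, rfl⟩)
      have h4 := hc1 a (hA1 a ha)
      rcases hc2 a with h5 | h5
      · exact ⟨c a, h4, 1, N.one_mem, h3, h1, by
          show a = (c a).1 * (1 : P)⁻¹
          rw [h5]; group⟩
      · exact ⟨1, N.one_mem, c a, h4, h1, h3, by
          show a = 1 * (c a).1⁻¹
          rw [h5]; group⟩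
    have h3 : h.1 ∈ B := (Subgroup.normalClosure_le_normal hAB) (hA2 hh)
    obtain ⟨a, ha, b, hb, hRa, hRb, he⟩ := h3
    refine hcan h hh b hb hRb ?_
    have : h * b = a := by
      apply Subtype.ext
      show h.1 * b.1 = a.1
      rw [he]; group
    rw [this]; exact hRa

variable {M' : Type} [Monoid M'] [IsCancelMul M'] (p : Mo χ →* M') (hp : Function.Surjective p)
  (j : M' →* P ⧸ N) (hj : Function.Injective j)
  (hjp : ∀ g : Mo χ, j (p g) = (QuotientGroup.mk g.1 : P ⧸ N))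

include hj hjp in
theorem two_fib (g g' : Mo χ) (h : p g = p g') : ∃ h ∈ NN' N χ, g' = g * h ∨ g = g' * h := by
  have h1 : (QuotientGroup.mk g.1 : P ⧸ N) = QuotientGroup.mk g'.1 := by rw [← hjp, ← hjp, h]
  have h2 : g.1⁻¹ * g'.1 ∈ N := QuotientGroup.eq.1 h1
  by_cases h3 : 0 ≤ ht χ (g.1⁻¹ * g'.1)
  · exact ⟨⟨_, h3⟩, h2, Or.inl (Subtype.ext (mul_inv_cancel_left _ _).symm)⟩
  · refine ⟨⟨(g.1⁻¹ * g'.1)⁻¹, ?_⟩, N.inv_mem h2, Or.inr (Subtype.ext ?_)⟩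
    · show 0 ≤ ht χ (g.1⁻¹ * g'.1)⁻¹
      rw [ht_inv]; linarith
    · show g.1 = g'.1 * (g.1⁻¹ * g'.1)⁻¹
      group

include hj hjp hKN in
theorem two_inj : Function.Injective (p.comp (iK K χ)) := by
  intro a b h
  have h1 : (QuotientGroup.mk a.1.1 : P ⧸ N) = QuotientGroup.mk b.1.1 := by
    have := congrArg j h
    have h2 := hjp (iK K χ a)
    have h3 := hjp (iK K χ b)
    exact h2.symm.trans (this.trans h3)
  have h2 : a.1.1⁻¹ * b.1.1 ∈ K ⊓ N :=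
    ⟨K.mul_mem (K.inv_mem a.1.2) b.1.2, QuotientGroup.eq.1 h1⟩
  rw [hKN, Subgroup.mem_bot] at h2
  exact Subtype.ext (Subtype.ext (eq_of_inv_mul_eq_one h2))

/-- the map to the common quotient -/
def qQ : P ⧸ N →* P ⧸ (K ⊔ N) := QuotientGroup.map N (K ⊔ N) (MonoidHom.id P) (by
    intro x hx; exact Subgroup.mem_sup_right hx)

/-- the map to the common quotient -/
def pQ : M' →* P ⧸ (K ⊔ N) := (qQ K N).comp j

include hjp in
theorem pQ_apply (g : Mo χ) : pQ K N j (p g) = (QuotientGroup.mk g.1 : P ⧸ (K ⊔ N)) := by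
  show qQ K N (j (p g)) = _
  rw [hjp]; rfl

include hjp hχ in
theorem pQ_surj : Function.Surjective (pQ K N j) := by
  intro x
  obtain ⟨g, rfl⟩ := QuotientGroup.mk'_surjective _ x
  obtain ⟨k, hk, hk1, _⟩ := exists_shift K χ hχ g 0
  refine ⟨p ⟨g * k, hk1⟩, ?_⟩
  rw [pQ_apply K N χ p j hjp]
  show (QuotientGroup.mk (g * k) : P ⧸ (K ⊔ N)) = QuotientGroup.mk g
  rw [QuotientGroup.eq]
  have : (g * k)⁻¹ * g = k⁻¹ := by group
  rw [this]; exact Subgroup.mem_sup_left (K.inv_mem hk)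

include hjp in
theorem pQ_iK (ν : Mo (χ.comp K.subtype)) : pQ K N j (p (iK K χ ν)) = 1 := by
  rw [pQ_apply K N χ p j hjp]
  rw [QuotientGroup.eq_one_iff]
  exact Subgroup.mem_sup_left ν.1.2

include hp hj hjp in
theorem pQ_hd (g g' : M') (h : pQ K N j g = pQ K N j g') :
    ∃ g0 ν ν', g = g0 * p (iK K χ ν) ∧ g' = g0 * p (iK K χ ν') := by
  obtain ⟨a, rfl⟩ := hp g
  obtain ⟨b, rfl⟩ := hp g'
  rw [pQ_apply K N χ p j hjp, pQ_apply K N χ p j hjp] at h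
  have h1 : a.1⁻¹ * b.1 ∈ (↑(K ⊔ N) : Set P) := QuotientGroup.eq.1 h
  rw [Subgroup.normal_mul] at h1
  obtain ⟨k, hk, n, hn, hkn⟩ := h1
  have hkn' : b.1 = a.1 * k * n := by
    have h2 : k * n = a.1⁻¹ * b.1 := hkn
    rw [mul_assoc, h2, mul_inv_cancel_left]
  by_cases h0 : 0 ≤ ht χ k
  · refine ⟨p a, 1, ⟨⟨k, hk⟩, h0⟩, ?_, ?_⟩
    · rw [map_one, map_one, mul_one]
    · rw [← map_mul]
      apply hj
      rw [hjp, hjp, QuotientGroup.eq]
      show b.1⁻¹ * (a.1 * k) ∈ N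
      rw [hkn']
      have : (a.1 * k * n)⁻¹ * (a.1 * k) = n⁻¹ := by group
      rw [this]; exact N.inv_mem hn
  · refine ⟨p b, ⟨⟨k⁻¹, K.inv_mem hk⟩, ?_⟩, 1, ?_, ?_⟩
    · show 0 ≤ ht χ k⁻¹
      rw [ht_inv]; linarith
    · rw [← map_mul]
      apply hj
      rw [hjp, hjp, QuotientGroup.eq]
      show a.1⁻¹ * (b.1 * k⁻¹) ∈ N
      rw [hkn']
      have : a.1⁻¹ * (a.1 * k * n * k⁻¹) = k * n * k⁻¹ := by group
      rw [this]; exact hNn.conj_mem _ hn k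
    · rw [map_one, map_one, mul_one]

include hKn hNn hKN hχ hp hj hjp in
/-- **The comparison theorem in a group.** -/
theorem mfib {n : ℕ} (hK : FPm (ZM (Mo (χ.comp K.subtype))) (n + 1) (TrM (Mo (χ.comp K.subtype))))
    (hM' : FPm (ZM M') (n + 2) (TrM M')) (hL : FPg (n + 2) (P ⧸ K)) (hLfg : Group.FG (P ⧸ K))
    (hQ : FPg (n + 3) (P ⧸ (K ⊔ N))) (hQ' : FPres (P ⧸ (K ⊔ N))) :
    FPm (ZM (Mo χ)) (n + 2) (TrM (Mo χ)) := by
  classical
  obtain ⟨F⟩ := fpm_resM hK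
  obtain ⟨r, q, hq⟩ := fg_gens (P ⧸ K)
  choose s hs using fun i => pK_surj K χ hχ (q i)
  have hgen : ∀ g : Mo χ, ∃ (l : List (Fin r)) (g0 : Mo χ) (ν1 ν2 : Mo (χ.comp K.subtype)),
      g = g0 * iK K χ ν1 ∧ (l.map s).prod = g0 * iK K χ ν2 := by
    intro g
    obtain ⟨l, hl⟩ := hq (pK K χ g)
    obtain ⟨g0, ν1, ν2, h1, h2⟩ := pK_hd K χ g (l.map s).prod (by
      rw [hl, map_list_prod, List.map_map]
      have : (⇑(pK K χ) ∘ s) = q := funext hs
      rw [this])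
    exact ⟨l, g0, ν1, ν2, h1, h2⟩
  let Φ : ∀ i, CM (iK K χ) F (s i) := fun i => cm (iK K χ) F (iK_normal K χ) (iK_inj K χ) (s i)
  have hclL : Subgroup.closure (Set.range (fun i => pK K χ (s i))) = ⊤ := by
    rw [eq_top_iff]
    intro g _
    obtain ⟨l, rfl⟩ := hq g
    apply Subgroup.list_prod_mem
    intro x hx
    obtain ⟨i, _, rfl⟩ := List.mem_map.1 hx
    exact Subgroup.subset_closure ⟨i, hs i⟩
  have hclQ : Subgroup.closure (Set.range (fun i => pQ K N j (p (s i)))) = ⊤ := by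
    let rr : P ⧸ K →* P ⧸ (K ⊔ N) := QuotientGroup.map K (K ⊔ N) (MonoidHom.id P) (by
      intro x hx; exact Subgroup.mem_sup_left hx)
    have hrr : Function.Surjective rr := by
      intro x
      obtain ⟨x, rfl⟩ := QuotientGroup.mk'_surjective _ x
      exact ⟨QuotientGroup.mk' K x, rfl⟩
    have h2 : Set.range (fun i => pQ K N j (p (s i))) = rr '' (Set.range (fun i => pK K χ (s i))) := by
      rw [← Set.range_comp]
      congr 1
      funext i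
      rw [pQ_apply K N χ p j hjp]
      rfl
    rw [h2, ← MonoidHom.map_closure, hclL, ← MonoidHom.range_eq_map]
    exact MonoidHom.range_eq_top.2 hrr
  have hW1 := pk_wfg (p.comp (iK K χ)) (two_inj K N hKN χ p j hj hjp) (pQ K N j)
    (pQ_surj K N χ hχ p j hjp) (pQ_iK K N χ p j hjp) (pQ_hd K N χ p hp j hj hjp) F
    (fun i => p (s i)) (fun i => (Φ i).push (iK K χ) p F) hclQ hM' hQ
  rw [wfg_iff] at hW1
  obtain ⟨H, hH⟩ := kgen_two K N hKN χ hχ hQ'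
  have hW := link (iK K χ) (iK_normal K χ) p F s Φ (NN' N χ) (NN'_comm K N hKN χ) (NN'_conj N χ)
    (pK K χ) (pQ K N j) (pK_iK K χ) (pK_hd K χ) (pQ_iK K N χ p j hjp)
    (pQ_hd K N χ p hp j hj hjp) (iK_inj K χ) (two_inj K N hKN χ p j hj hjp) (pK_surj K χ hχ)
    (pQ_surj K N χ hχ p j hjp) hp (two_fib N χ p j hj hjp) hgen H hH hW1
  rw [← wfg_iff (iK K χ) F s Φ (pK K χ)] at hW
  exact wfg_pk (iK K χ) (iK_inj K χ) (pK K χ) (pK_surj K χ hχ) (pK_iK K χ) (pK_hd K χ) F s Φ hclL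
    hW hL

end two

end Pool.Agent.TH18.MS
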